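import Mathlib

set_option autoImplicit false

namespace Pool.Agent.DiskCFI

/-- Multiplied vertex set. -/
abbrev Blow {X : Type} (mult : X → ℕ) (M : ℕ) : Type := {p : X × Fin M // p.2.1 < mult p.1}

/-- Every vertex is replaced by a clique of true twins. -/
def blowG {X : Type} (mult : X → ℕ) (M : ℕ) (G : SimpleGraph X) : SimpleGraph (Blow mult M) where
  Adj p q := p ≠ q ∧ (p.1.1 = q.1.1 ∨ G.Adj p.1.1 q.1.1)
  symm := ⟨fun _ _ h => ⟨h.1.symm, h.2.imp Eq.symm (fun h => h.symm)⟩⟩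
  loopless := ⟨fun _ h => h.1 rfl⟩

variable {X : Type} (mult : X → ℕ) (M : ℕ)

theorem cn_blow (G : SimpleGraph X) (p z : Blow mult M) :
    (z = p ∨ (blowG mult M G).Adj p z) ↔ (z.1.1 = p.1.1 ∨ G.Adj p.1.1 z.1.1) := by
  simp only [blowG]
  constructor
  · rintro (rfl | ⟨-, h | h⟩)
    · exact Or.inl rfl
    · exact Or.inl h.symm
    · exact Or.inr h
  · rintro (h | h)
    · by_cases hz : z = p
      · exact Or.inl hz
      · exact Or.inr ⟨fun h => hz h.symm, Or.inl h.symm⟩
    · right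
      refine ⟨?_, Or.inr h⟩
      rintro rfl
      exact G.irrefl h

theorem twin_iff (hM : ∀ u, 0 < mult u ∧ mult u ≤ M) (G : SimpleGraph X)
    (hG : ∀ u w, (∀ z, (z = u ∨ G.Adj u z) ↔ (z = w ∨ G.Adj w z)) → u = w) (p q : Blow mult M) :
    (∀ z, (z = q ∨ (blowG mult M G).Adj q z) ↔ (z = p ∨ (blowG mult M G).Adj p z)) ↔
      q.1.1 = p.1.1 := by
  constructor
  · intro h
    apply hG
    intro z
    have hz := hM z
    have := h ⟨(z, ⟨0, by omega⟩), hz.1⟩
    rw [cn_blow, cn_blow] at this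
    exact this
  · intro h z
    rw [cn_blow, cn_blow, h]

theorem card_twins (hM : ∀ u, 0 < mult u ∧ mult u ≤ M) (u : X) :
    Nat.card {q : Blow mult M // q.1.1 = u} = mult u := by
  have e : {q : Blow mult M // q.1.1 = u} ≃ Fin (mult u) :=
    { toFun := fun q => ⟨q.1.1.2.1, by have := q.1.2; rw [q.2] at this; exact this⟩
      invFun := fun j => ⟨⟨(u, ⟨j.1, lt_of_lt_of_le j.2 (hM u).2⟩), j.2⟩, rfl⟩
      left_inv := by
        rintro ⟨⟨⟨x, j⟩, hj⟩, hx⟩
        simp only at hx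
        subst hx
        rfl
      right_inv := fun j => rfl }
  rw [Nat.card_congr e]; simp

theorem blow_iso (hM : ∀ u, 0 < mult u ∧ mult u ≤ M) (G H : SimpleGraph X)
    (hG : ∀ u w, (∀ z, (z = u ∨ G.Adj u z) ↔ (z = w ∨ G.Adj w z)) → u = w)
    (hH : ∀ u w, (∀ z, (z = u ∨ H.Adj u z) ↔ (z = w ∨ H.Adj w z)) → u = w)
    (Φ : blowG mult M G ≃g blowG mult M H) :
    ∃ ψ : X → X, Function.Injective ψ ∧ (∀ u, mult (ψ u) = mult u) ∧
      ∀ u w, u ≠ w → (G.Adj u w ↔ H.Adj (ψ u) (ψ w)) := by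
  have key : ∀ p q : Blow mult M, q.1.1 = p.1.1 ↔ (Φ q).1.1 = (Φ p).1.1 := by
    intro p q
    rw [← twin_iff mult M hM G hG, ← twin_iff mult M hM H hH]
    constructor
    · intro h z
      obtain ⟨z, rfl⟩ := Φ.surjective z
      rw [Φ.map_adj_iff, Φ.map_adj_iff, Φ.injective.eq_iff, Φ.injective.eq_iff]
      exact h z
    · intro h z
      have := h (Φ z)
      rw [Φ.map_adj_iff, Φ.map_adj_iff, Φ.injective.eq_iff, Φ.injective.eq_iff] at this
      exact this
  let b : X → Blow mult M := fun u => ⟨(u, ⟨0, (hM u).1.trans_le (hM u).2⟩), (hM u).1⟩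
  refine ⟨fun u => (Φ (b u)).1.1, ?_, ?_, ?_⟩
  · intro u w h
    have := (key (b w) (b u)).2 h
    exact this
  · intro u
    rw [← card_twins mult M hM ((Φ (b u)).1.1), ← card_twins mult M hM u]
    refine Nat.card_congr ?_
    refine (Φ.toEquiv.subtypeEquiv ?_).symm
    intro q
    exact key (b u) q
  · intro u w huw
    have h1 : G.Adj u w ↔ (blowG mult M G).Adj (b u) (b w) := by
      constructor
      · intro h
        refine ⟨?_, Or.inr h⟩
        intro h2
        apply huw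
        exact congrArg (fun p : Blow mult M => p.1.1) h2
      · rintro ⟨-, h | h⟩
        · exact absurd h huw
        · exact h
    have h2 : (Φ (b u)).1.1 ≠ (Φ (b w)).1.1 := fun h => huw ((key (b w) (b u)).2 h)
    rw [h1, ← Φ.map_adj_iff]
    constructor
    · rintro ⟨-, h | h⟩
      · exact absurd h h2
      · exact h
    · intro h
      refine ⟨?_, Or.inr h⟩
      intro h3
      exact h2 (congrArg (fun p : Blow mult M => p.1.1) h3)

end Pool.Agent.DiskCFI
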