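import Mathlib

set_option autoImplicit false

namespace Pool.Agent.DiskCFI

/-- Patterns on the three slots of a vertex gadget: the sum of the three bits is one. -/
abbrev Pat := {S : Fin 3 → ZMod 2 // S 0 + S 1 + S 2 = 1}

/-- Elements of the coloured structure: wires `B`, half-plane like pairs `H`, small ones `g`. -/
inductive El (V E : Type) : Type
  | B (e : E) (s : ZMod 2) : El V E
  | H (v : V) (i : Fin 3) (a : ZMod 2) : El V E
  | g (v : V) (S : Pat) : El V E

/-- The colour classes of elements. -/
inductive Cl (V E : Type) : Type
  | B (e : E) : Cl V E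
  | H (v : V) (i : Fin 3) : Cl V E
  | g (v : V) : Cl V E

variable {V E : Type}

/-- Elements as a sum type. -/
def elEquiv : El V E ≃ (E × ZMod 2) ⊕ ((V × Fin 3 × ZMod 2) ⊕ (V × Pat)) where
  toFun
    | .B e s => .inl (e, s)
    | .H v i a => .inr (.inl (v, i, a))
    | .g v S => .inr (.inr (v, S))
  invFun
    | .inl (e, s) => .B e s
    | .inr (.inl (v, i, a)) => .H v i a
    | .inr (.inr (v, S)) => .g v S
  left_inv x := by cases x <;> rfl
  right_inv x := by rcases x with x | x | x <;> rfl

/-- Colour classes as a sum type. -/
def clEquiv : Cl V E ≃ E ⊕ ((V × Fin 3) ⊕ V) where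
  toFun
    | .B e => .inl e
    | .H v i => .inr (.inl (v, i))
    | .g v => .inr (.inr v)
  invFun
    | .inl e => .B e
    | .inr (.inl (v, i)) => .H v i
    | .inr (.inr v) => .g v
  left_inv x := by cases x <;> rfl
  right_inv x := by rcases x with x | x | x <;> rfl

noncomputable instance [Fintype V] [Fintype E] : Fintype (El V E) :=
  Fintype.ofEquiv _ elEquiv.symm

noncomputable instance [Fintype V] [Fintype E] : Fintype (Cl V E) :=
  Fintype.ofEquiv _ clEquiv.symm

noncomputable instance : DecidableEq (El V E) := Classical.decEq _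
noncomputable instance : DecidableEq (Cl V E) := Classical.decEq _

/-- Colour class of an element. -/
def cl : El V E → Cl V E
  | .B e _ => .B e
  | .H v i _ => .H v i
  | .g v _ => .g v

/-- The data from which the graphs are built. -/
structure Data (V E : Type) where
  inc : V → Fin 3 → E
  ori : V → Fin 3 → ZMod 2
  hBg : E → V → Prop
  hBH : E → V → Fin 3 → Prop

/-- Adjacency relation with twist vector `tw`. -/
def rel (D : Data V E) (tw : V → ZMod 2) : El V E → El V E → Prop
  | .B e s, .B e' s' => ¬ (e = e' ∧ s = s')
  | .B e s, .H v i a => (D.inc v i = e ∧ s + a = D.ori v i) ∨ (D.inc v i ≠ e ∧ D.hBH e v i)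
  | .B e _, .g v _ => D.hBg e v
  | .H v i a, .B e s => (D.inc v i = e ∧ s + a = D.ori v i) ∨ (D.inc v i ≠ e ∧ D.hBH e v i)
  | .H v i a, .H w j b => v = w ∧ ¬ (i = j ∧ a = b)
  | .H v i a, .g w S => v = w ∧ a = S.1 i + (if i = 0 then tw v else 0)
  | .g v _, .B e _ => D.hBg e v
  | .g w S, .H v i a => v = w ∧ a = S.1 i + (if i = 0 then tw v else 0)
  | .g _ _, .g _ _ => False

theorem rel_symm (D : Data V E) (tw : V → ZMod 2) (u w : El V E) (h : rel D tw u w) :
    rel D tw w u := by
  cases u <;> cases w <;> simp only [rel] at h ⊢ <;> try exact h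
  · rintro ⟨rfl, rfl⟩; exact h ⟨rfl, rfl⟩
  · obtain ⟨rfl, h⟩ := h
    refine ⟨rfl, ?_⟩
    rintro ⟨rfl, rfl⟩; exact h ⟨rfl, rfl⟩

theorem rel_irrefl (D : Data V E) (tw : V → ZMod 2) (u : El V E) : ¬ rel D tw u u := by
  cases u <;> simp [rel]

/-- The graph on elements. -/
def gr (D : Data V E) (tw : V → ZMod 2) : SimpleGraph (El V E) where
  Adj := rel D tw
  symm := ⟨fun u w h => rel_symm D tw u w h⟩
  loopless := ⟨fun u h => rel_irrefl D tw u h⟩

/-- Parity defect of a flip vector at `v`. -/
def kap (D : Data V E) (F : E → ZMod 2) (v : V) : ZMod 2 :=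
  F (D.inc v 0) + F (D.inc v 1) + F (D.inc v 2)

/-- How patterns are changed. -/
def patMap (D : Data V E) (F : E → ZMod 2) (v : V) (S : Pat) : Pat :=
  ⟨fun i => S.1 i + F (D.inc v i) + (if i = 0 then kap D F v else 0), by
    have h := S.2
    have h2 : (2 : ZMod 2) = 0 := by decide
    simp only [kap, Fin.isValue, if_true, one_ne_zero, if_false, add_zero,
      show ((2 : Fin 3) = 0) = False from by decide]
    linear_combination h + (F (D.inc v 0) + F (D.inc v 1) + F (D.inc v 2)) * h2⟩

/-- The map on elements given by a flip vector. -/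
def flip (D : Data V E) (F : E → ZMod 2) : El V E → El V E
  | .B e s => .B e (s + F e)
  | .H v i a => .H v i (a + F (D.inc v i))
  | .g v S => .g v (patMap D F v S)

theorem zadd (a b : ZMod 2) : a + b + b = a := by revert a b; decide

theorem flip_flip (D : Data V E) (F : E → ZMod 2) (u : El V E) : flip D F (flip D F u) = u := by
  cases u with
  | B e s => simp [flip, zadd]
  | H v i a => simp [flip, zadd]
  | g v S =>
    simp only [flip, patMap, El.g.injEq, true_and]
    apply Subtype.ext
    funext i
    have : ∀ a b c : ZMod 2, a + b + c + b + c = a := by decide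
    exact this _ _ _

theorem cl_flip (D : Data V E) (F : E → ZMod 2) (u : El V E) : cl (flip D F u) = cl u := by
  cases u <;> rfl

theorem flip_inj (D : Data V E) (F : E → ZMod 2) {u w : El V E} (h : flip D F u = flip D F w) :
    u = w := by
  rw [← flip_flip D F u, h, flip_flip]

/-- The place of a possible defect. -/
def gv : El V E → Option V
  | .g v _ => some v
  | _ => none

theorem rel_flip (D : Data V E) (tw : V → ZMod 2) (F : E → ZMod 2) (u w : El V E)
    (hu : ∀ v, gv u = some v → kap D F v = tw v) (hw : ∀ v, gv w = some v → kap D F v = tw v) :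
    rel D 0 u w ↔ rel D tw (flip D F u) (flip D F w) := by
  cases u with
  | B e s =>
    cases w with
    | B e' s' =>
      simp only [rel, flip]
      constructor
      · rintro h ⟨rfl, h2⟩; exact h ⟨rfl, add_right_cancel h2⟩
      · rintro h ⟨rfl, rfl⟩; exact h ⟨rfl, rfl⟩
    | H v i a =>
      simp only [rel, flip]
      constructor
      · rintro (⟨rfl, h⟩ | h)
        · left; refine ⟨rfl, ?_⟩
          rw [← h]
          have : ∀ a b c : ZMod 2, a + b + (c + b) = a + c := by decide
          exact this _ _ _
        · right; exact h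
      · rintro (⟨rfl, h⟩ | h)
        · left; refine ⟨rfl, ?_⟩
          rw [← h]
          have : ∀ a b c : ZMod 2, a + c = a + b + (c + b) := by decide
          exact this _ _ _
        · right; exact h
    | g v S => simp only [rel, flip]
  | H v i a =>
    cases w with
    | B e s =>
      simp only [rel, flip]
      constructor
      · rintro (⟨rfl, h⟩ | h)
        · left; refine ⟨rfl, ?_⟩
          rw [← h]
          have : ∀ a b c : ZMod 2, a + b + (c + b) = a + c := by decide
          exact this _ _ _
        · right; exact h
      · rintro (⟨rfl, h⟩ | h)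
        · left; refine ⟨rfl, ?_⟩
          rw [← h]
          have : ∀ a b c : ZMod 2, a + c = a + b + (c + b) := by decide
          exact this _ _ _
        · right; exact h
    | H v' j b =>
      simp only [rel, flip]
      constructor
      · rintro ⟨rfl, h⟩
        refine ⟨rfl, ?_⟩
        rintro ⟨rfl, h2⟩; exact h ⟨rfl, add_right_cancel h2⟩
      · rintro ⟨rfl, h⟩
        refine ⟨rfl, ?_⟩
        rintro ⟨rfl, rfl⟩; exact h ⟨rfl, rfl⟩
    | g v' S =>
      simp only [rel, flip, patMap]
      have hk := hw v' rfl
      constructor
      · rintro ⟨rfl, h⟩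
        refine ⟨rfl, ?_⟩
        by_cases hi : i = 0
        · subst hi
          simp only [if_true, Pi.zero_apply] at h ⊢
          rw [h, hk]
          have : ∀ a b c : ZMod 2, a + 0 + b = a + b + c + c := by decide
          exact this _ _ _
        · simp only [hi, if_false] at h ⊢
          rw [h]; ring
      · rintro ⟨rfl, h⟩
        refine ⟨rfl, ?_⟩
        by_cases hi : i = 0
        · subst hi
          simp only [if_true, Pi.zero_apply] at h ⊢
          rw [hk] at h
          have : ∀ x a b c : ZMod 2, x + b = a + b + c + c → x = a + 0 := by decide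
          exact this _ _ _ _ h
        · simp only [hi, if_false] at h ⊢
          have : ∀ x a b : ZMod 2, x + b = a + b + 0 + 0 → x = a + 0 := by decide
          exact this _ _ _ h
  | g v S =>
    cases w with
    | B e s => simp only [rel, flip]
    | H v' i a =>
      simp only [rel, flip, patMap]
      have hk := hu v rfl
      constructor
      · rintro ⟨rfl, h⟩
        refine ⟨rfl, ?_⟩
        by_cases hi : i = 0
        · subst hi
          simp only [if_true, Pi.zero_apply] at h ⊢
          rw [h, hk]
          have : ∀ a b c : ZMod 2, a + 0 + b = a + b + c + c := by decide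
          exact this _ _ _
        · simp only [hi, if_false] at h ⊢
          rw [h]; ring
      · rintro ⟨rfl, h⟩
        refine ⟨rfl, ?_⟩
        by_cases hi : i = 0
        · subst hi
          simp only [if_true, Pi.zero_apply] at h ⊢
          rw [hk] at h
          have : ∀ x a b c : ZMod 2, x + b = a + b + c + c → x = a + 0 := by decide
          exact this _ _ _ _ h
        · simp only [hi, if_false] at h ⊢
          have : ∀ x a b : ZMod 2, x + b = a + b + 0 + 0 → x = a + 0 := by decide
          exact this _ _ _ h
    | g v' S' => simp only [rel, flip]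

end Pool.Agent.DiskCFI
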