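import Pool.Agent.Lib.MP_5fb53e_lc.Game

set_option autoImplicit false

namespace Pool.Agent.DiskCFI

variable {m : ℕ}

/-- Lift of a flip to the multiplied vertex set. -/
def lift (D : Data (VV (m + 1)) (EE (m + 1))) (mult : El (VV (m + 1)) (EE (m + 1)) → ℕ) (M : ℕ)
    (hmult : ∀ u w, cl u = cl w → mult u = mult w)
    (x : Fin (m + 1) → Fin (m + 1) → ZMod 2) (p : Blow mult M) : Blow mult M :=
  ⟨(flip D (FF x) p.1.1, p.1.2), by
    have h := hmult (flip D (FF x) p.1.1) p.1.1 (cl_flip D (FF x) p.1.1)
    rw [h]; exact p.2⟩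

theorem lift_lift (D : Data (VV (m + 1)) (EE (m + 1))) (mult : El (VV (m + 1)) (EE (m + 1)) → ℕ)
    (M : ℕ) (hmult : ∀ u w, cl u = cl w → mult u = mult w)
    (x : Fin (m + 1) → Fin (m + 1) → ZMod 2) (p : Blow mult M) :
    lift D mult M hmult x (lift D mult M hmult x p) = p := by
  apply Subtype.ext
  simp only [lift, flip_flip]

theorem line_lift (D : Data (VV (m + 1)) (EE (m + 1))) (mult : El (VV (m + 1)) (EE (m + 1)) → ℕ)
    (M : ℕ) (hmult : ∀ u w, cl u = cl w → mult u = mult w)
    (x : Fin (m + 1) → Fin (m + 1) → ZMod 2) (p : Blow mult M) :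
    line (lift D mult M hmult x p).1.1 = line p.1.1 := line_flip D (FF x) p.1.1

/-- The bijection played by Duplicator. -/
def resp (D : Data (VV (m + 1)) (EE (m + 1))) (mult : El (VV (m + 1)) (EE (m + 1)) → ℕ) (M : ℕ)
    (hmult : ∀ u w, cl u = cl w → mult u = mult w)
    (x x' : Fin (m + 1) → Fin (m + 1) → ZMod 2) (l : Ln (m + 1)) : Blow mult M ≃ Blow mult M :=
  Function.Involutive.toPerm
    (fun p => if line p.1.1 = l then lift D mult M hmult x' p else lift D mult M hmult x p) (by
      intro p
      by_cases h : line p.1.1 = l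
      · simp only [h, if_true, line_lift, lift_lift]
      · simp only [h, if_false, line_lift, lift_lift])

theorem resp_apply (D : Data (VV (m + 1)) (EE (m + 1))) (mult : El (VV (m + 1)) (EE (m + 1)) → ℕ)
    (M : ℕ) (hmult : ∀ u w, cl u = cl w → mult u = mult w)
    (x x' : Fin (m + 1) → Fin (m + 1) → ZMod 2) (l : Ln (m + 1)) (p : Blow mult M) :
    resp D mult M hmult x x' l p =
      if line p.1.1 = l then lift D mult M hmult x' p else lift D mult M hmult x p := rfl

theorem exists_free {k n : ℕ} (hk : k < n) (f : Fin k → Fin n) : ∃ c : Fin n, ∀ j, f j ≠ c := by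
  by_contra h
  push Not at h
  have := Fintype.card_le_of_surjective f h
  simp at this
  omega

theorem dup (k : ℕ) (hk : k < m + 1) (D : Data (VV (m + 1)) (EE (m + 1))) (hD : D.inc = incc)
    (mult : El (VV (m + 1)) (EE (m + 1)) → ℕ) (M : ℕ)
    (hmult : ∀ u w, cl u = cl w → mult u = mult w) :
    ∃ P : Set ((Fin k → Blow mult M) × (Fin k → Blow mult M)),
      (∀ p ∈ P, ∀ i j : Fin k,
        (p.1 i = p.1 j ↔ p.2 i = p.2 j) ∧
        ((blowG mult M (gr D 0)).Adj (p.1 i) (p.1 j) ↔
          (blowG mult M (gr D twV)).Adj (p.2 i) (p.2 j))) ∧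
      (∀ p ∈ P, ∀ i : Fin k, ∃ f : Blow mult M ≃ Blow mult M, ∀ v,
        (Function.update p.1 i v, Function.update p.2 i (f v)) ∈ P) ∧
      (∃ f : Blow mult M ≃ Blow mult M, ∀ v,
        ((fun _ : Fin k => v), (fun _ : Fin k => f v)) ∈ P) := by
  refine ⟨{p | ∃ x l, Good x l ∧ (∀ i, line (p.1 i).1.1 ≠ l) ∧
    ∀ i, p.2 i = lift D mult M hmult x (p.1 i)}, ?_, ?_, ?_⟩
  · rintro ⟨p, q⟩ ⟨x, l, hx, hp, hq⟩ i j
    simp only at hp hq ⊢
    have h1 : p i = p j ↔ q i = q j := by
      rw [hq i, hq j]
      constructor
      · intro h; rw [h]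
      · intro h
        have := congrArg (lift D mult M hmult x) h
        rwa [lift_lift, lift_lift] at this
    refine ⟨h1, ?_⟩
    have h2 : (p i).1.1 = (p j).1.1 ↔ (q i).1.1 = (q j).1.1 := by
      rw [hq i, hq j]
      constructor
      · intro h; simp only [lift, h]
      · intro h
        exact flip_inj D (FF x) h
    have h3 := rel_good D hD x l hx (p i).1.1 (p j).1.1 (hp i) (hp j)
    simp only [blowG, gr]
    rw [ne_eq, h1, h2, h3, hq i, hq j]
    rfl
  · rintro ⟨p, q⟩ ⟨x, l, hx, hp, hq⟩ i
    simp only at hp hq ⊢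
    obtain ⟨c, hc⟩ := exists_free hk (fun j => (line (p j).1.1).2)
    have hx' := good_bump x l hx c
    set x' := (if l.1 = true then bump x c l.2 else bump x l.2 c) with hx'def
    refine ⟨resp D mult M hmult x x' l, fun v => ?_⟩
    rw [resp_apply]
    by_cases hv : line v.1.1 = l
    · rw [if_pos hv]
      refine ⟨x', (!l.1, c), hx', ?_, ?_⟩
      · intro j
        simp only [Function.update_apply]
        split_ifs with hj
        · rw [hv]
          intro h
          have := congrArg Prod.fst h
          simp at this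
        · intro h
          exact hc j (congrArg Prod.snd h)
      · intro j
        simp only [Function.update_apply]
        split_ifs with hj
        · rfl
        · rw [hq j]
          apply Subtype.ext
          simp only [lift]
          have h1 : line (p j).1.1 ≠ l := hp j
          have h2 : line (p j).1.1 ≠ (!l.1, c) := fun h => hc j (congrArg Prod.snd h)
          rw [Prod.mk.injEq]
          refine ⟨?_, rfl⟩
          rw [hx'def]
          obtain ⟨b, i0⟩ := l
          cases b
          · simp only [Bool.false_eq_true, if_false]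
            exact (flip_bump D hD x i0 c _ h1 h2).symm
          · simp only [if_true]
            exact (flip_bump D hD x c i0 _ h2 h1).symm
    · rw [if_neg hv]
      refine ⟨x, l, hx, ?_, ?_⟩
      · intro j
        simp only [Function.update_apply]
        split_ifs with hj
        · exact hv
        · exact hp j
      · intro j
        simp only [Function.update_apply]
        split_ifs with hj
        · rfl
        · exact hq j
  · have h0 := good_zero (n := m + 1)
    have h0' := good_bump (fun _ _ => 0) (false, 0) h0 (0 : Fin (m + 1))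
    refine ⟨resp D mult M hmult (fun _ _ => 0) (if (false, (0 : Fin (m + 1))).1 = true
        then bump (fun _ _ => 0) 0 (false, (0 : Fin (m + 1))).2
        else bump (fun _ _ => 0) (false, (0 : Fin (m + 1))).2 0) (false, 0), fun v => ?_⟩
    rw [resp_apply]
    by_cases hv : line v.1.1 = (false, 0)
    · rw [if_pos hv]
      refine ⟨_, _, h0', ?_, ?_⟩
      · intro j
        rw [hv]
        intro h
        have := congrArg Prod.fst h
        simp at this
      · intro j
        rfl
    · rw [if_neg hv]
      exact ⟨_, _, h0, fun _ => hv, fun _ => rfl⟩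

end Pool.Agent.DiskCFI
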