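import Pool.Agent.Lib.MP_5fb53e_lc.Geo

set_option autoImplicit false

namespace Pool.Agent.DiskCFI

open Filter Topology

variable {V E : Type} (G : Geo V E) (gx gy : V → Pat → ℝ)

theorem rr_B0 (K : ℝ) (e : E) (σ : ZMod 2) :
    rr G K 0 0 (.B e σ) = √(G.dq e / 4 + (K / 2) ^ 2) := by
  simp [rr, RR]

theorem Ev_BB (e e' : E) (σ σ' : ZMod 2) (hne : ¬ (e = e' ∧ σ = σ')) :
    Ev G gx gy (.B e σ) (.B e' σ') := by
  apply Ev_of_neg2 G (by simpa only [rel] using hne)
  filter_upwards [eventually_gt_atTop |G.sm e - G.sm e'|] with K hK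
  have hK0 : 0 ≤ K := (abs_nonneg _).trans hK.le
  simp only [QQ, rr_B0]
  simp only [cx, cy, zero_mul, sub_zero, ne_eq, OfNat.ofNat_ne_zero, not_false_eq_true, zero_pow,
    mul_zero, add_zero, sub_self]
  have h1 : ∀ e, K / 2 ≤ √(G.dq e / 4 + (K / 2) ^ 2) := by
    intro e
    apply Real.le_sqrt_of_sq_le
    have := G.hdq0 e
    linarith
  have h2 : (G.sm e / 2 - G.sm e' / 2) ^ 2 < K ^ 2 := by
    rw [sq_lt_sq, abs_of_nonneg hK0]
    have : G.sm e / 2 - G.sm e' / 2 = (G.sm e - G.sm e') / 2 := by ring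
    rw [this, abs_div, abs_two]
    have := abs_nonneg (G.sm e - G.sm e')
    linarith
  have h3 := h1 e
  have h4 := h1 e'
  nlinarith

theorem Ev_gg_ne (v w : V) (S T : Pat) (h : v ≠ w) : Ev G gx gy (.g v S) (.g w T) := by
  apply Ev_of_pos2 G (by simp [rel])
  filter_upwards with K
  simp only [QQ, cx, cy, rr, zero_mul, add_zero, ne_eq, OfNat.ofNat_ne_zero, not_false_eq_true,
    zero_pow, sub_zero]
  have := sub_ne_zero.2 (G.hx v w h)
  positivity

theorem Ev_gg_eq (v : V) (S T : Pat) (h : gx v S ≠ gx v T ∨ gy v S ≠ gy v T) :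
    Ev G gx gy (.g v S) (.g v T) := by
  unfold Ev
  filter_upwards [eventually_gt_atTop (0 : ℝ)] with K hK
  filter_upwards with s
  have hA : 0 < (gx v S - gx v T) ^ 2 + (K * (gy v S - gy v T)) ^ 2 := by
    rcases h with h | h
    · have := sub_ne_zero.2 h
      positivity
    · have := mul_ne_zero hK.ne' (sub_ne_zero.2 h)
      positivity
  have hc : Continuous (fun t : ℝ => (gx v S - gx v T) ^ 2 + (K * (gy v S - gy v T)) ^ 2 -
      4 * t ^ 2) := by fun_prop
  filter_upwards [ev_gt hc (c := 0) (by simpa using hA), self_mem_nhdsWithin] with t ht ht0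
  have ht0' : 0 < t := ht0
  have hq : QQ G gx gy K s t (.g v S) (.g v T) = t ^ 2 * ((gx v S - gx v T) ^ 2 +
      (K * (gy v S - gy v T)) ^ 2 - 4 * t ^ 2) := by
    simp only [QQ, cx, cy, rr]; ring
  rw [hq]
  simp only [rel, false_iff, not_le]
  positivity

theorem Ev_Hg_ne (v w : V) (i : Fin 3) (a : ZMod 2) (S : Pat) (h : v ≠ w) :
    Ev G gx gy (.H v i a) (.g w S) := by
  apply Ev_of_pos2 G (by simp [rel, h])
  filter_upwards with K
  simp only [QQ, cx, cy, rr, RR, zero_mul, add_zero, ne_eq, OfNat.ofNat_ne_zero, not_false_eq_true,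
    zero_pow, sub_zero, mul_zero, neg_zero, sub_self]
  have := sub_ne_zero.2 (G.hx v w h)
  positivity

theorem Ev_Hg_eq (hg : ∀ v S i, (S.1 i = 1 → gx v S + (G.d v i) ^ 2 - G.d v i * gy v S < 0) ∧
    (S.1 i = 0 → 0 < gx v S + (G.d v i) ^ 2 - G.d v i * gy v S))
    (v : V) (i : Fin 3) (a : ZMod 2) (S : Pat) :
    Ev G gx gy (.H v i a) (.g v S) := by
  unfold Ev
  filter_upwards [eventually_gt_atTop (0 : ℝ)] with K hK
  filter_upwards [self_mem_nhdsWithin] with s hs
  have hs' : 0 < s := hs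
  set L := gx v S + (G.d v i) ^ 2 - G.d v i * gy v S with hL
  have hrk := G.hrk (G.inc v i)
  have hrel : (rel G.data 0 (.H v i a) (.g v S)) ↔ a = S.1 i := by
    simp [rel]
  have hq : ∀ t, QQ G gx gy K s t (.H v i a) (.g v S) = t * (t * ((gx v S + (G.d v i) ^ 2) ^ 2 +
      (K * gy v S) ^ 2) - 2 * sg a * (s * G.rk (G.inc v i)) * K * L -
      2 * t * RR G K s (G.inc v i) - t ^ 3) := by
    intro t
    have h1 := RR_sq G (K := K) (s := s) (G.inc v i)
    have h2 := sg_sq a
    rw [G.hdq] at h1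
    simp only [QQ, cx, cy, rr, hL]
    linear_combination (-1) * h1 + (s * G.rk (G.inc v i)) ^ 2 * (K ^ 2 + G.d v i ^ 2) * h2
  have hc : Continuous (fun t : ℝ => t * ((gx v S + (G.d v i) ^ 2) ^ 2 +
      (K * gy v S) ^ 2) - 2 * sg a * (s * G.rk (G.inc v i)) * K * L -
      2 * t * RR G K s (G.inc v i) - t ^ 3) := by fun_prop
  have hpos : 0 < s * G.rk (G.inc v i) * K := by positivity
  by_cases haS : a = S.1 i
  · have h0 : sg a * L > 0 := by
      rcases z2 a with rfl | rfl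
      · rw [sg_zero, one_mul]; exact (hg v S i).2 haS.symm
      · rw [sg_one]; have := (hg v S i).1 haS.symm; linarith
    filter_upwards [ev_lt hc (c := 0) (by
      simp only [zero_mul, mul_zero, sub_zero, zero_sub, ne_eq, OfNat.ofNat_ne_zero,
        not_false_eq_true, zero_pow]
      nlinarith), self_mem_nhdsWithin] with t ht ht0
    have ht0' : 0 < t := ht0
    rw [hrel, hq]
    exact ⟨fun _ => (mul_neg_of_pos_of_neg ht0' ht).le, fun _ => haS⟩
  · have h0 : sg a * L < 0 := by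
      rcases z2 a with rfl | rfl
      · have h1 : S.1 i = 1 := (z2 (S.1 i)).resolve_left (fun h => haS h.symm)
        rw [sg_zero, one_mul]; exact (hg v S i).1 h1
      · have h1 : S.1 i = 0 := (z2 (S.1 i)).resolve_right (fun h => haS h.symm)
        rw [sg_one]; have := (hg v S i).2 h1; linarith
    filter_upwards [ev_gt hc (c := 0) (by
      simp only [zero_mul, mul_zero, sub_zero, zero_sub, ne_eq, OfNat.ofNat_ne_zero,
        not_false_eq_true, zero_pow]
      nlinarith), self_mem_nhdsWithin] with t ht ht0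
    have ht0' : 0 < t := ht0
    rw [hrel, hq]
    exact ⟨fun h => absurd h haS, fun h => absurd (mul_pos ht0' ht) (not_lt.2 h)⟩

theorem Ev_HH_ne (v w : V) (i j : Fin 3) (a b : ZMod 2) (h : v ≠ w) :
    Ev G gx gy (.H v i a) (.H w j b) := by
  apply Ev_of_pos2 G (by simp [rel, h])
  filter_upwards with K
  simp only [QQ, cx, cy, rr, RR, zero_mul, add_zero, ne_eq, OfNat.ofNat_ne_zero, not_false_eq_true,
    zero_pow, sub_zero, mul_zero, neg_zero, sub_self]
  have := sub_ne_zero.2 (G.hx v w h)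
  positivity

theorem Ev_HH_same (v : V) (i : Fin 3) (a b : ZMod 2) (h : a ≠ b) :
    Ev G gx gy (.H v i a) (.H v i b) := by
  unfold Ev
  filter_upwards with K
  filter_upwards with s
  filter_upwards with t
  have h1 := RR_sq G (K := K) (s := s) (G.inc v i)
  rw [G.hdq] at h1
  have hq : QQ G gx gy K s t (.H v i a) (.H v i b) = 0 := by
    have h2 : sg a - sg b = 2 ∨ sg a - sg b = -2 := by
      rcases z2 a with rfl | rfl <;> rcases z2 b with rfl | rfl
      · exact absurd rfl h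
      · left; rw [sg_zero, sg_one]; norm_num
      · right; rw [sg_zero, sg_one]; norm_num
      · exact absurd rfl h
    have h3 : (sg a - sg b) ^ 2 = 4 := by rcases h2 with h2 | h2 <;> rw [h2] <;> norm_num
    simp only [QQ, cx, cy, rr]
    linear_combination (-4) * h1 + (s * G.rk (G.inc v i)) ^ 2 * (K ^ 2 + G.d v i ^ 2) * h3
  rw [hq]
  simp only [rel, le_refl, iff_true]
  exact ⟨trivial, fun h' => h h'.2⟩

theorem strict_cs (K d d' : ℝ) (hK : 0 < K) (hd : d ≠ d') (c : ℝ) (hc : c ^ 2 = 1) :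
    0 < c * (K ^ 2 + d * d') + √(K ^ 2 + d ^ 2) * √(K ^ 2 + d' ^ 2) := by
  rw [← Real.sqrt_mul (by positivity)]
  have h1 : |K ^ 2 + d * d'| < √((K ^ 2 + d ^ 2) * (K ^ 2 + d' ^ 2)) := by
    apply Real.lt_sqrt_of_sq_lt
    rw [sq_abs]
    have := sub_ne_zero.2 hd
    have h2 : 0 < K ^ 2 * (d - d') ^ 2 := by positivity
    nlinarith
  have h2 : c = 1 ∨ c = -1 := by
    have h3 : (c - 1) * (c + 1) = 0 := by linear_combination hc
    rcases mul_eq_zero.1 h3 with h | h
    · left; linarith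
    · right; linarith
  rcases h2 with rfl | rfl
  · have := neg_abs_le (K ^ 2 + d * d'); linarith
  · have := le_abs_self (K ^ 2 + d * d'); linarith

theorem Ev_HH_diff (v : V) (i j : Fin 3) (a b : ZMod 2) (h : i ≠ j) :
    Ev G gx gy (.H v i a) (.H v j b) := by
  apply Ev_of_neg1 G (by simp [rel, h])
  filter_upwards [eventually_gt_atTop (0 : ℝ)] with K hK
  filter_upwards [self_mem_nhdsWithin] with s hs
  have hs' : 0 < s := hs
  have hd : G.d v i ≠ G.d v j := by
    intro h'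
    have := G.hdd v i j h
    rw [h', sub_self, abs_zero] at this
    linarith
  have hc : (sg a * sg b) ^ 2 = 1 := by rw [mul_pow, sg_sq, sg_sq, one_mul]
  have hcs := strict_cs K (G.d v i) (G.d v j) hK hd _ hc
  have h1 := RR_sq G (K := K) (s := s) (G.inc v i)
  have h1' := RR_sq G (K := K) (s := s) (G.inc v j)
  have h2 := sg_sq a
  have h2' := sg_sq b
  rw [G.hdq] at h1 h1'
  have h3 : RR G K s (G.inc v i) * RR G K s (G.inc v j) = (s * G.rk (G.inc v i)) *
      (s * G.rk (G.inc v j)) * (√(K ^ 2 + G.d v i ^ 2) * √(K ^ 2 + G.d v j ^ 2)) := by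
    unfold RR; rw [G.hdq, G.hdq]; ring
  have hq : QQ G gx gy K s 0 (.H v i a) (.H v j b) = - (2 * ((s * G.rk (G.inc v i)) *
      (s * G.rk (G.inc v j))) * (sg a * sg b * (K ^ 2 + G.d v i * G.d v j) +
        √(K ^ 2 + G.d v i ^ 2) * √(K ^ 2 + G.d v j ^ 2))) := by
    simp only [QQ, cx, cy, rr]
    linear_combination (-1) * h1 + (-1) * h1' - 2 * h3 +
      (s * G.rk (G.inc v i)) ^ 2 * (K ^ 2 + G.d v i ^ 2) * h2 +
      (s * G.rk (G.inc v j)) ^ 2 * (K ^ 2 + G.d v j ^ 2) * h2'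
  rw [hq]
  have hr1 := G.hrk (G.inc v i)
  have hr2 := G.hrk (G.inc v j)
  have : 0 < 2 * ((s * G.rk (G.inc v i)) * (s * G.rk (G.inc v j))) := by positivity
  have := mul_pos this hcs
  linarith

theorem Ev_Bg (e : E) (σ : ZMod 2) (v : V) (S : Pat) : Ev G gx gy (.B e σ) (.g v S) := by
  by_cases hinc : ∃ i, G.inc v i = e
  · obtain ⟨i, rfl⟩ := hinc
    apply Ev_of_pos1 G (by simp [rel, Geo.data, G.PP_inc v i])
    filter_upwards [eventually_gt_atTop (0 : ℝ)] with K hK
    filter_upwards [self_mem_nhdsWithin] with s hs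
    have hs' : 0 < s := hs
    have hR := RR_pos G hK hs' (G.inc v i)
    set R := RR G K s (G.inc v i) with hRdef
    set M := G.dq (G.inc v i) / 4 + (K / 2) ^ 2 + R ^ 2 with hM
    have hdq0 := G.hdq0 (G.inc v i)
    have hM0 : 0 ≤ M := by positivity
    have hsq : √M ^ 2 = M := Real.sq_sqrt hM0
    have hlt : R < √M := by
      apply Real.lt_sqrt_of_sq_lt
      have : 0 < (K / 2) ^ 2 := by positivity
      linarith
    have hq : QQ G gx gy K s 0 (.B (G.inc v i) σ) (.g v S) = 2 * R * (√M - R) := by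
      simp only [QQ, cx, cy, rr, ne_eq, OfNat.ofNat_ne_zero, not_false_eq_true, zero_pow,
        mul_zero, add_zero, zero_mul, sub_zero, ← hRdef, ← hM]
      rw [G.hsm]
      have h1 := G.hdq v i
      linear_combination (-1) * hsq + hM - (1 / 4) * h1
    rw [hq]
    have := sub_pos.2 hlt
    positivity
  · push Not at hinc
    have hP := G.hP v e hinc
    have hq : ∀ K, QQ G gx gy K 0 0 (.B e σ) (.g v S) = G.PP v e := by
      intro K
      simp only [QQ, rr_B0]
      simp only [cx, cy, rr, ne_eq, OfNat.ofNat_ne_zero, not_false_eq_true, zero_pow,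
        mul_zero, add_zero, zero_mul, sub_zero, Geo.PP]
      have hdq0 := G.hdq0 e
      rw [Real.sq_sqrt (by positivity)]
      ring
    change G.PP v e ≠ 0 at hP
    rcases lt_or_gt_of_ne hP with h | h
    · apply Ev_of_neg2 G (by simpa only [rel, Geo.data] using h)
      filter_upwards with K
      rw [hq]; exact h
    · apply Ev_of_pos2 G (by simpa only [rel, Geo.data, not_lt] using h.le)
      filter_upwards with K
      rw [hq]; exact h

theorem Ev_BH_inc (σ : ZMod 2) (v : V) (i : Fin 3) (a : ZMod 2) :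
    Ev G gx gy (.B (G.inc v i) σ) (.H v i a) := by
  unfold Ev
  filter_upwards [eventually_gt_atTop (0 : ℝ)] with K hK
  filter_upwards [self_mem_nhdsWithin] with s hs
  have hs' : 0 < s := hs
  filter_upwards [self_mem_nhdsWithin] with t ht
  have ht' : 0 < t := ht
  have hrk := G.hrk (G.inc v i)
  set R := RR G K s (G.inc v i) with hRdef
  set M := G.dq (G.inc v i) / 4 + (K / 2 + sg σ * t ^ 2) ^ 2 + R ^ 2 with hM
  have hdq0 := G.hdq0 (G.inc v i)
  have hM0 : 0 ≤ M := by positivity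
  have hsq : √M ^ 2 = M := Real.sq_sqrt hM0
  have h1 := RR_sq G (K := K) (s := s) (G.inc v i)
  rw [G.hdq, ← hRdef] at h1
  have h2 := sg_sq a
  have h4 := G.hdq v i
  have hq : QQ G gx gy K s t (.B (G.inc v i) σ) (.H v i a) =
      2 * t ^ 2 * (s * G.rk (G.inc v i)) * (sg σ * sg a * G.d v i) := by
    simp only [QQ, cx, cy, rr, ← hRdef, ← hM]
    rw [G.hsm, G.hdq]
    linear_combination (-1) * hsq + hM - (1 / 4) * h4 - h1 +
      (s * G.rk (G.inc v i)) ^ 2 * (K ^ 2 + G.d v i ^ 2) * h2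
  have hrel : rel G.data 0 (.B (G.inc v i) σ) (.H v i a) ↔
      σ + a = if 0 < G.d v i then 1 else 0 := by
    simp [rel, Geo.data]
  rw [hrel, hq]
  have hpos : 0 < 2 * t ^ 2 * (s * G.rk (G.inc v i)) := by positivity
  have hle : 2 * t ^ 2 * (s * G.rk (G.inc v i)) * (sg σ * sg a * G.d v i) ≤ 0 ↔
      sg σ * sg a * G.d v i ≤ 0 := by
    constructor
    · intro h; by_contra h'
      push Not at h'
      have := mul_pos hpos h'
      linarith
    · intro h
      exact mul_nonpos_of_nonneg_of_nonpos hpos.le h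
  rw [hle]
  have hd0 := G.hd0 v i
  rcases lt_or_gt_of_ne hd0 with hd | hd
  · rw [if_neg (not_lt.2 hd.le)]
    rcases z2 σ with rfl | rfl <;> rcases z2 a with rfl | rfl <;>
      simp only [sg_zero, sg_one, add_zero, zero_add, one_ne_zero,
        show (1 : ZMod 2) + 1 = 0 from by decide] <;> simp <;> linarith
  · rw [if_pos hd]
    rcases z2 σ with rfl | rfl <;> rcases z2 a with rfl | rfl <;>
      simp only [sg_zero, sg_one, add_zero, zero_add, zero_ne_one,
        show (1 : ZMod 2) + 1 = 0 from by decide] <;> simp <;> linarith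

theorem sqrt_bounds (K d : ℝ) (hK : 0 < K) : K ≤ √(K ^ 2 + d ^ 2) ∧ √(K ^ 2 + d ^ 2) ≤ K + |d| := by
  constructor
  · apply Real.le_sqrt_of_sq_le
    have := sq_nonneg d
    linarith
  · apply Real.sqrt_le_iff.2
    have := abs_nonneg d
    refine ⟨by positivity, ?_⟩
    have h := sq_abs d
    nlinarith

theorem Ev_BH_adj (σ : ZMod 2) (v : V) (i j : Fin 3) (a : ZMod 2) (hij : G.inc v i ≠ G.inc v j) :
    Ev G gx gy (.B (G.inc v j) σ) (.H v i a) := by
  have hrk := G.hrk (G.inc v i)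
  have hrk' := G.hrk (G.inc v j)
  have hne : G.rk (G.inc v i) ≠ G.rk (G.inc v j) := fun h => hij (G.hrk' _ _ h)
  have hrel : rel G.data 0 (.B (G.inc v j) σ) (.H v i a) ↔
      G.rk (G.inc v j) < G.rk (G.inc v i) := by
    simp only [rel, Geo.data, G.PP_inc v j, hij, false_and, false_or, ne_eq, not_false_eq_true,
      true_and, lt_irrefl]
  set ρ := G.rk (G.inc v i) with hρ
  set ρ' := G.rk (G.inc v j) with hρ'
  set d := G.d v i with hd
  set d' := G.d v j with hd'
  have hq : ∀ K s, QQ G gx gy K s 0 (.B (G.inc v j) σ) (.H v i a) =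
      s * (-2 * (ρ * √(K ^ 2 + d ^ 2) - ρ' * √(K ^ 2 + d' ^ 2)) *
        (√(d' ^ 2 / 4 + (K / 2) ^ 2 + (s * ρ' * √(K ^ 2 + d' ^ 2)) ^ 2) -
          s * ρ' * √(K ^ 2 + d' ^ 2)) - sg a * ρ * K * (d' - d)) := by
    intro K s
    have h1 := RR_sq G (K := K) (s := s) (G.inc v i)
    have h1' := RR_sq G (K := K) (s := s) (G.inc v j)
    have e1 : RR G K s (G.inc v i) = s * ρ * √(K ^ 2 + d ^ 2) := by
      unfold RR; rw [G.hdq]
    have e2 : RR G K s (G.inc v j) = s * ρ' * √(K ^ 2 + d' ^ 2) := by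
      unfold RR; rw [G.hdq]
    have h2 := sg_sq a
    rw [G.hdq, e1, ← hd, ← hρ] at h1
    rw [G.hdq, e2, ← hd', ← hρ'] at h1'
    simp only [QQ, cx, cy, rr, e1, e2]
    rw [G.hsm, G.hdq]
    simp only [ne_eq, OfNat.ofNat_ne_zero, not_false_eq_true, zero_pow, mul_zero, add_zero,
      zero_mul, sub_zero]
    rw [← hd', ← hd, ← hρ]
    set w := √(K ^ 2 + d ^ 2)
    set w' := √(K ^ 2 + d' ^ 2)
    have hM0 : 0 ≤ d' ^ 2 / 4 + (K / 2) ^ 2 + (s * ρ' * w') ^ 2 := by positivity
    have hsq := Real.sq_sqrt hM0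
    set q := √(d' ^ 2 / 4 + (K / 2) ^ 2 + (s * ρ' * w') ^ 2)
    linear_combination (-1) * hsq - h1 + (s * ρ) ^ 2 * (K ^ 2 + d ^ 2) * h2
  have hc : ∀ K, Continuous (fun s : ℝ => -2 * (ρ * √(K ^ 2 + d ^ 2) - ρ' * √(K ^ 2 + d' ^ 2)) *
        (√(d' ^ 2 / 4 + (K / 2) ^ 2 + (s * ρ' * √(K ^ 2 + d' ^ 2)) ^ 2) -
          s * ρ' * √(K ^ 2 + d' ^ 2)) - sg a * ρ * K * (d' - d)) := by
    intro K; fun_prop
  have hf0 : ∀ K, 0 < K → √(d' ^ 2 / 4 + (K / 2) ^ 2) = √(K ^ 2 + d' ^ 2) / 2 := by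
    intro K hK
    rw [show d' ^ 2 / 4 + (K / 2) ^ 2 = (K ^ 2 + d' ^ 2) / 2 ^ 2 by ring,
      Real.sqrt_div (by positivity), Real.sqrt_sq (by norm_num)]
  have habs : |sg a * ρ * (d' - d)| = ρ * |d' - d| := by
    rw [abs_mul, abs_mul, abs_of_pos hrk]
    have : |sg a| = 1 := by
      rcases z2 a with rfl | rfl
      · rw [sg_zero, abs_one]
      · rw [sg_one, abs_neg, abs_one]
    rw [this, one_mul]
  rcases lt_or_gt_of_ne hne with h | h
  · apply Ev_of_pos1 G (by rw [hrel]; exact not_lt.2 h.le)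
    filter_upwards [eventually_gt_atTop ((ρ * |d| + ρ * |d' - d|) / (ρ' - ρ)),
      eventually_gt_atTop (0 : ℝ)] with K hK hK0
    rw [div_lt_iff₀ (sub_pos.2 h)] at hK
    have b1 := sqrt_bounds K d hK0
    have b2 := sqrt_bounds K d' hK0
    have key : 0 < -2 * (ρ * √(K ^ 2 + d ^ 2) - ρ' * √(K ^ 2 + d' ^ 2)) *
        (√(d' ^ 2 / 4 + (K / 2) ^ 2 + (0 * ρ' * √(K ^ 2 + d' ^ 2)) ^ 2) -
          0 * ρ' * √(K ^ 2 + d' ^ 2)) - sg a * ρ * K * (d' - d) := by
      simp only [zero_mul, ne_eq, OfNat.ofNat_ne_zero, not_false_eq_true, zero_pow, add_zero,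
        sub_zero]
      rw [hf0 K hK0]
      have c1 : ρ' * √(K ^ 2 + d' ^ 2) - ρ * √(K ^ 2 + d ^ 2) > ρ * |d' - d| := by
        nlinarith
      have c2 := le_abs_self (sg a * ρ * (d' - d))
      rw [habs] at c2
      have c3 : 0 ≤ ρ * |d' - d| := by positivity
      nlinarith
    filter_upwards [ev_gt (hc K) key, self_mem_nhdsWithin] with s hs hs0
    rw [hq]
    exact mul_pos hs0 hs
  · apply Ev_of_neg1 G (by rw [hrel]; exact h)
    filter_upwards [eventually_gt_atTop ((ρ' * |d'| + ρ * |d' - d|) / (ρ - ρ')),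
      eventually_gt_atTop (0 : ℝ)] with K hK hK0
    rw [div_lt_iff₀ (sub_pos.2 h)] at hK
    have b1 := sqrt_bounds K d hK0
    have b2 := sqrt_bounds K d' hK0
    have key : -2 * (ρ * √(K ^ 2 + d ^ 2) - ρ' * √(K ^ 2 + d' ^ 2)) *
        (√(d' ^ 2 / 4 + (K / 2) ^ 2 + (0 * ρ' * √(K ^ 2 + d' ^ 2)) ^ 2) -
          0 * ρ' * √(K ^ 2 + d' ^ 2)) - sg a * ρ * K * (d' - d) < 0 := by
      simp only [zero_mul, ne_eq, OfNat.ofNat_ne_zero, not_false_eq_true, zero_pow, add_zero,
        sub_zero]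
      rw [hf0 K hK0]
      have c1 : ρ * √(K ^ 2 + d ^ 2) - ρ' * √(K ^ 2 + d' ^ 2) > ρ * |d' - d| := by
        nlinarith
      have c2 := neg_abs_le (sg a * ρ * (d' - d))
      rw [habs] at c2
      have c3 : 0 ≤ ρ * |d' - d| := by positivity
      nlinarith
    filter_upwards [ev_lt (hc K) key, self_mem_nhdsWithin] with s hs hs0
    rw [hq]
    exact mul_neg_of_pos_of_neg hs0 hs

theorem Ev_BH_far (e : E) (σ : ZMod 2) (v : V) (i : Fin 3) (a : ZMod 2)
    (hinc : ∀ i, G.inc v i ≠ e) : Ev G gx gy (.B e σ) (.H v i a) := by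
  have hP := G.hP v e hinc
  have hq : ∀ K, QQ G gx gy K 0 0 (.B e σ) (.H v i a) = G.PP v e := by
    intro K
    simp only [QQ, rr_B0]
    simp only [cx, cy, rr, RR, ne_eq, OfNat.ofNat_ne_zero, not_false_eq_true, zero_pow,
      mul_zero, add_zero, zero_mul, sub_zero, neg_zero, Geo.PP]
    have hdq0 := G.hdq0 e
    rw [Real.sq_sqrt (by positivity)]
    ring
  change G.PP v e ≠ 0 at hP
  rcases lt_or_gt_of_ne hP with h | h
  · apply Ev_of_neg2 G (by
      simp only [rel, Geo.data]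
      exact Or.inr ⟨hinc i, Or.inl h⟩)
    filter_upwards with K
    rw [hq]; exact h
  · apply Ev_of_pos2 G (by
      simp only [rel, Geo.data]
      rintro (h1 | ⟨-, h1 | h1⟩)
      · exact hinc i h1.1
      · exact absurd h (not_lt.2 h1.le)
      · exact hP h1.1)
    filter_upwards with K
    rw [hq]; exact h

theorem Ev_BH (e : E) (σ : ZMod 2) (v : V) (i : Fin 3) (a : ZMod 2) :
    Ev G gx gy (.B e σ) (.H v i a) := by
  by_cases h1 : ∀ i, G.inc v i ≠ e
  · exact Ev_BH_far G gx gy e σ v i a h1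
  · push Not at h1
    obtain ⟨j, rfl⟩ := h1
    by_cases h2 : G.inc v i = G.inc v j
    · rw [← h2]; exact Ev_BH_inc G gx gy σ v i a
    · exact Ev_BH_adj G gx gy σ v i j a h2

theorem Ev_all (hg : ∀ v S i, (S.1 i = 1 → gx v S + (G.d v i) ^ 2 - G.d v i * gy v S < 0) ∧
    (S.1 i = 0 → 0 < gx v S + (G.d v i) ^ 2 - G.d v i * gy v S))
    (u w : El V E) (huw : u ≠ w) : Ev G gx gy u w := by
  cases u with
  | B e σ =>
    cases w with
    | B e' σ' =>
      exact Ev_BB G gx gy e e' σ σ' (by rintro ⟨rfl, rfl⟩; exact huw rfl)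
    | H v i a => exact Ev_BH G gx gy e σ v i a
    | g v S => exact Ev_Bg G gx gy e σ v S
  | H v i a =>
    cases w with
    | B e σ => exact Ev_symm G (Ev_BH G gx gy e σ v i a)
    | H w j b =>
      by_cases h1 : v = w
      · subst h1
        by_cases h2 : i = j
        · subst h2
          exact Ev_HH_same G gx gy v i a b (by rintro rfl; exact huw rfl)
        · exact Ev_HH_diff G gx gy v i j a b h2
      · exact Ev_HH_ne G gx gy v w i j a b h1
    | g w S =>
      by_cases h1 : v = w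
      · subst h1; exact Ev_Hg_eq G gx gy hg v i a S
      · exact Ev_Hg_ne G gx gy v w i a S h1
  | g v S =>
    cases w with
    | B e σ => exact Ev_symm G (Ev_Bg G gx gy e σ v S)
    | H w i a =>
      by_cases h1 : w = v
      · subst h1; exact Ev_symm G (Ev_Hg_eq G gx gy hg w i a S)
      · exact Ev_symm G (Ev_Hg_ne G gx gy w v i a S h1)
    | g w T =>
      by_cases h1 : v = w
      · subst h1
        apply Ev_gg_eq
        by_contra h2
        push Not at h2
        apply huw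
        have : S = T := by
          apply Subtype.ext
          funext i
          have h3 := hg v S i
          have h4 := hg v T i
          rw [h2.1, h2.2] at h3
          rcases z2 (S.1 i) with hS | hS <;> rcases z2 (T.1 i) with hT | hT
          · rw [hS, hT]
          · exact absurd (h3.2 hS) (not_lt.2 (h4.1 hT).le)
          · exact absurd (h4.2 hT) (not_lt.2 (h3.1 hS).le)
          · rw [hS, hT]
        rw [this]
      · exact Ev_gg_ne G gx gy v w S T h1

/-- The untwisted graph is a disk graph. -/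
theorem disk_rep [Finite V] [Finite E] : ∃ (c : El V E → ℝ × ℝ) (r : El V E → ℝ),
    (∀ u, 0 < r u) ∧ ∀ u w, u ≠ w → (rel G.data 0 u w ↔
      ((c u).1 - (c w).1) ^ 2 + ((c u).2 - (c w).2) ^ 2 ≤ (r u + r w) ^ 2) := by
  choose p hp using fun v S => exists_place G v S
  have : Finite (El V E) := Finite.of_equiv _ elEquiv.symm
  have h1 : ∀ᶠ K in atTop, ∀ᶠ s in 𝓝[>] (0 : ℝ), ∀ᶠ t in 𝓝[>] (0 : ℝ), ∀ u w : El V E, u ≠ w →
      (rel G.data 0 u w ↔ QQ G (fun v S => (p v S).1) (fun v S => (p v S).2) K s t u w ≤ 0) := by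
    simp only [eventually_all]
    intro u w huw
    exact Ev_all G _ _ hp u w huw
  obtain ⟨K, hK, hK0⟩ := (h1.and (eventually_gt_atTop (0 : ℝ))).exists
  obtain ⟨s, hs, hs0⟩ := (hK.and self_mem_nhdsWithin).exists
  have hc : Continuous (fun t : ℝ => t ^ 2) := by fun_prop
  obtain ⟨t, ⟨ht, ht0⟩, ht1⟩ := ((hs.and self_mem_nhdsWithin).and
    (ev_lt hc (c := K / 2) (by simpa using hK0))).exists
  refine ⟨fun u => (cx G (fun v S => (p v S).1) K s t u, cy G (fun v S => (p v S).2) K s t u),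
    fun u => rr G K s t u, fun u => rr_pos G hK0 hs0 ht0 ht1 u, fun u w huw => ?_⟩
  rw [ht u w huw, QQ, sub_nonpos]

end Pool.Agent.DiskCFI
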