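import Pool.Agent.Lib.MP_5fb53e_lc.Dup
import Pool.Agent.Lib.MP_5fb53e_lc.Pairs

set_option autoImplicit false

namespace Pool.Agent.DiskCFI

/-- Position of a base vertex on the line. -/
noncomputable def pos {n : ℕ} (v : VV n) : ℝ := ((Fintype.equivFin (VV n) v : ℕ) : ℝ)

theorem pos_inj {n : ℕ} {v w : VV n} (h : pos v = pos w) : v = w := by
  unfold pos at h
  have := Nat.cast_injective h
  exact (Fintype.equivFin (VV n)).injective (Fin.ext this)

theorem pos_gap {n : ℕ} {v w : VV n} (h : v ≠ w) : 1 ≤ |pos v - pos w| := by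
  have h1 : (Fintype.equivFin (VV n) v : ℕ) ≠ (Fintype.equivFin (VV n) w : ℕ) :=
    fun h' => h ((Fintype.equivFin (VV n)).injective (Fin.ext h'))
  unfold pos
  rcases lt_or_gt_of_ne h1 with h2 | h2
  · have h3 : ((Fintype.equivFin (VV n) v : ℕ) : ℝ) + 1 ≤ ((Fintype.equivFin (VV n) w : ℕ) : ℝ) := by
      exact_mod_cast h2
    rw [abs_sub_comm]
    exact le_trans (by linarith) (le_abs_self _)
  · have h3 : ((Fintype.equivFin (VV n) w : ℕ) : ℝ) + 1 ≤ ((Fintype.equivFin (VV n) v : ℕ) : ℝ) := by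
      exact_mod_cast h2
    exact le_trans (by linarith) (le_abs_self _)

/-- Neighbour of a base vertex. -/
def oth {m : ℕ} (v : VV (m + 1)) (i : Fin 3) : VV (m + 1) :=
  if i = 0 then ((!v.1.1, v.2), v.1.2) else if i = 1 then (v.1, v.2 - 1) else (v.1, v.2 + 1)

/-- One end of an edge. -/
def lft {m : ℕ} : EE (m + 1) → VV (m + 1)
  | .inl p => ((false, p.1), p.2)
  | .inr v => (v.1, v.2 - 1)

/-- The other end of an edge. -/
def rgt {m : ℕ} : EE (m + 1) → VV (m + 1)
  | .inl p => ((true, p.2), p.1)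
  | .inr v => v

theorem ends {m : ℕ} (v : VV (m + 1)) (i : Fin 3) :
    (lft (incc v i) = v ∧ rgt (incc v i) = oth v i) ∨
    (rgt (incc v i) = v ∧ lft (incc v i) = oth v i) := by
  obtain ⟨⟨b, c⟩, j⟩ := v
  have h20 : (2 : Fin 3) ≠ 0 := by decide
  have h21 : (2 : Fin 3) ≠ 1 := by decide
  fin_cases i
  · cases b
    · left; simp [lft, rgt, incc, oth]
    · right; simp [lft, rgt, incc, oth]
  · right; simp [lft, rgt, incc, oth]
  · left; simp [lft, rgt, incc, oth]

theorem lft_mem {m : ℕ} (e : EE (m + 1)) : ∃ i, incc (lft e) i = e := by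
  rcases e with ⟨i, j⟩ | ⟨l, j⟩
  · exact ⟨0, by simp [lft, incc]⟩
  · exact ⟨2, by simp [lft, incc]⟩

theorem rgt_mem {m : ℕ} (e : EE (m + 1)) : ∃ i, incc (rgt e) i = e := by
  rcases e with ⟨i, j⟩ | ⟨l, j⟩
  · exact ⟨0, by simp [rgt, incc]⟩
  · exact ⟨1, by simp [rgt, incc]⟩

theorem fin_facts (m : ℕ) (j : Fin (m + 2 + 1)) : j - 1 ≠ j ∧ j + 1 ≠ j ∧ j - 1 ≠ j + 1 := by
  have h1 : (1 : Fin (m + 2 + 1)) ≠ 0 := by simp
  have h2 : (1 : Fin (m + 2 + 1)) + 1 ≠ 0 := by
    intro h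
    have := congrArg Fin.val h
    rw [Fin.val_add_one_of_lt (by rw [Fin.lt_def]; simp)] at this
    simp at this
  refine ⟨?_, ?_, ?_⟩
  · intro h; rw [sub_eq_self] at h; exact h1 h
  · intro h; rw [add_eq_left] at h; exact h1 h
  · intro h
    apply h2
    have : j + (1 + 1) = j := by
      rw [← add_assoc, ← h]; simp
    rwa [add_eq_left] at this

theorem oth_ne {m : ℕ} (v : VV (m + 2 + 1)) (i : Fin 3) : oth v i ≠ v := by
  obtain ⟨⟨b, c⟩, j⟩ := v
  obtain ⟨h1, h2, h3⟩ := fin_facts m j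
  fin_cases i
  · intro h
    simp [oth] at h
  · intro h
    simp only [oth, Fin.mk_one, one_ne_zero, if_false, if_true, Prod.mk.injEq, true_and] at h
    exact h1 h
  · intro h
    simp only [oth, Fin.reduceFinMk, show ((2 : Fin 3) = 0) = False from by decide,
      show ((2 : Fin 3) = 1) = False from by decide, if_false, Prod.mk.injEq, true_and] at h
    exact h2 h

theorem oth_inj {m : ℕ} (v : VV (m + 2 + 1)) (i j : Fin 3) (hij : i ≠ j) : oth v i ≠ oth v j := by
  obtain ⟨⟨b, c⟩, q⟩ := v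
  obtain ⟨h1, h2, h3⟩ := fin_facts m q
  have e0 : oth ((b, c), q) 0 = ((!b, q), c) := rfl
  have e1 : oth ((b, c), q) 1 = ((b, c), q - 1) := rfl
  have e2 : oth ((b, c), q) 2 = ((b, c), q + 1) := rfl
  have hb : (!b) ≠ b := by cases b <;> decide
  have n01 : oth ((b, c), q) 0 ≠ oth ((b, c), q) 1 := by
    rw [e0, e1]; intro h; exact hb (congrArg (fun p => p.1.1) h)
  have n02 : oth ((b, c), q) 0 ≠ oth ((b, c), q) 2 := by
    rw [e0, e2]; intro h; exact hb (congrArg (fun p => p.1.1) h)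
  have n12 : oth ((b, c), q) 1 ≠ oth ((b, c), q) 2 := by
    rw [e1, e2]; intro h; exact h3 (congrArg (fun p => p.2) h)
  fin_cases i <;> fin_cases j
  · exact absurd rfl hij
  · exact n01
  · exact n02
  · exact n01.symm
  · exact absurd rfl hij
  · exact n12
  · exact n02.symm
  · exact n12.symm
  · exact absurd rfl hij

/-- The geometric input of the construction. -/
noncomputable def theGeo (m : ℕ) : Geo (VV (m + 2 + 1)) (EE (m + 2 + 1)) where
  x := pos
  inc := incc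
  d v i := pos (oth v i) - pos v
  sm e := pos (lft e) + pos (rgt e)
  dq e := (pos (lft e) - pos (rgt e)) ^ 2
  rk e := ((Fintype.equivFin (EE (m + 2 + 1)) e : ℕ) : ℝ) + 1
  hx v w h h' := h (pos_inj h')
  hd0 v i h := oth_ne v i (pos_inj (sub_eq_zero.1 h))
  hdd v i j hij := by
    have := pos_gap (oth_inj v i j hij)
    rw [show pos (oth v i) - pos v - (pos (oth v j) - pos v) = pos (oth v i) - pos (oth v j) by ring]
    exact this
  hsm v i := by
    rcases ends v i with ⟨h1, h2⟩ | ⟨h1, h2⟩ <;> (rw [h1, h2]; ring)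
  hdq v i := by
    rcases ends v i with ⟨h1, h2⟩ | ⟨h1, h2⟩ <;> (rw [h1, h2]; try ring)
  hdq0 e := sq_nonneg _
  hP v e h := by
    have h1 : v ≠ lft e := by
      rintro rfl
      obtain ⟨i, hi⟩ := lft_mem e
      exact h i hi
    have h2 : v ≠ rgt e := by
      rintro rfl
      obtain ⟨i, hi⟩ := rgt_mem e
      exact h i hi
    have e1 : (pos v - (pos (lft e) + pos (rgt e)) / 2) ^ 2 - (pos (lft e) - pos (rgt e)) ^ 2 / 4 =
      (pos v - pos (lft e)) * (pos v - pos (rgt e)) := by ring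
    rw [e1]
    exact mul_ne_zero (sub_ne_zero.2 fun h' => h1 (pos_inj h'))
      (sub_ne_zero.2 fun h' => h2 (pos_inj h'))
  hrk e := by positivity
  hrk' e e' h := by
    have h1 := add_right_cancel h
    have h2 := Nat.cast_injective h1
    exact (Fintype.equivFin _).injective (Fin.ext h2)

theorem final (k : ℕ) : ∃ (α : Type) (_ : Fintype α) (G H : SimpleGraph α),
    (∃ (c : α → ℝ × ℝ) (r : α → ℝ), (∀ i, 0 < r i) ∧ ∀ i j, i ≠ j → (G.Adj i j ↔
      ((c i).1 - (c j).1) ^ 2 + ((c i).2 - (c j).2) ^ 2 ≤ (r i + r j) ^ 2)) ∧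
    (∃ P : Set ((Fin k → α) × (Fin k → α)),
      (∀ p ∈ P, ∀ i j : Fin k,
        (p.1 i = p.1 j ↔ p.2 i = p.2 j) ∧ (G.Adj (p.1 i) (p.1 j) ↔ H.Adj (p.2 i) (p.2 j))) ∧
      (∀ p ∈ P, ∀ i : Fin k, ∃ f : α ≃ α, ∀ v,
        (Function.update p.1 i v, Function.update p.2 i (f v)) ∈ P) ∧
      (∃ f : α ≃ α, ∀ v, ((fun _ : Fin k => v), (fun _ : Fin k => f v)) ∈ P)) ∧
    IsEmpty (G ≃g H) := by
  classical
  set Γ := theGeo k with hΓ
  set D := Γ.data with hDdef
  have hD : D.inc = incc := rfl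
  let mult : El (VV (k + 2 + 1)) (EE (k + 2 + 1)) → ℕ := fun u =>
    (Fintype.equivFin (Cl (VV (k + 2 + 1)) (EE (k + 2 + 1))) (cl u) : ℕ) + 1
  let M : ℕ := Fintype.card (Cl (VV (k + 2 + 1)) (EE (k + 2 + 1)))
  have hM : ∀ u, 0 < mult u ∧ mult u ≤ M := fun u =>
    ⟨Nat.succ_pos _, (Fintype.equivFin (Cl (VV (k + 2 + 1)) (EE (k + 2 + 1))) (cl u)).2⟩
  have hmult : ∀ u w, cl u = cl w → mult u = mult w := fun u w h => by
    simp only [mult, h]
  have hmult' : ∀ u w, mult u = mult w → cl u = cl w := fun u w h => by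
    have h1 := Nat.succ_injective h
    exact (Fintype.equivFin _).injective (Fin.ext h1)
  have hsurj : ∀ e, ∃ v i, D.inc v i = e := fun e => ⟨lft e, lft_mem e⟩
  refine ⟨Blow mult M, inferInstance, blowG mult M (gr D 0), blowG mult M (gr D twV), ?_, ?_, ?_⟩
  · obtain ⟨c, r, hr, h⟩ := disk_rep Γ
    refine ⟨fun p => c p.1.1, fun p => r p.1.1, fun p => hr _, fun p q hpq => ?_⟩
    by_cases h1 : p.1.1 = q.1.1
    · simp only [h1, blowG, true_or, and_true, ne_eq, hpq, not_false_eq_true, sub_self, true_iff]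
      have h2 : (0 : ℝ) ≤ (r q.1.1 + r q.1.1) ^ 2 := sq_nonneg _
      linarith
    · rw [← h _ _ h1]
      simp only [blowG, ne_eq, hpq, not_false_eq_true, h1, false_or, true_and]
      rfl
  · exact dup k (by omega) D hD mult M hmult
  · refine ⟨fun Φ => ?_⟩
    obtain ⟨ψ, h1, h2, h3⟩ := blow_iso mult M hM (gr D 0) (gr D twV)
      (fun u w h => twin_free D hsurj 0 u w h) (fun u w h => twin_free D hsurj twV u w h) Φ
    exact no_embed D hD ψ h1 (fun u => hmult' _ _ (h2 u)) h3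

end Pool.Agent.DiskCFI
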