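import Pool.Agent.Lib.MP_5fb53e_lc.Final

set_option autoImplicit false

namespace Pool.Agent.DiskCFI

theorem card_VV (n : ℕ) : Fintype.card (VV n) = 2 * n ^ 2 := by
  simp only [VV, Ln, Fintype.card_prod, Fintype.card_bool, Fintype.card_fin]
  ring

theorem card_EE (n : ℕ) : Fintype.card (EE n) = 3 * n ^ 2 := by
  simp only [EE, VV, Ln, Fintype.card_sum, Fintype.card_prod, Fintype.card_bool, Fintype.card_fin]
  ring

theorem card_Pat : Fintype.card Pat = 4 := by decide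

theorem card_El (n : ℕ) : Fintype.card (El (VV n) (EE n)) = 26 * n ^ 2 := by
  rw [Fintype.card_congr (elEquiv (V := VV n) (E := EE n))]
  simp only [Fintype.card_sum, Fintype.card_prod, card_Pat, Fintype.card_fin,
    ZMod.card, Fintype.card_bool]
  ring

theorem card_Cl (n : ℕ) : Fintype.card (Cl (VV n) (EE n)) = 11 * n ^ 2 := by
  rw [Fintype.card_congr (clEquiv (V := VV n) (E := EE n))]
  simp only [Fintype.card_sum, Fintype.card_prod, Fintype.card_fin, Fintype.card_bool]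
  ring

/-- The pair of graphs, with an explicit bound on the number of vertices. -/
theorem finalCard (k : ℕ) : ∃ (α : Type) (_ : Fintype α) (_ : Nonempty α) (G H : SimpleGraph α),
    Fintype.card α ≤ 286 * (k + 3) ^ 4 ∧
    (∃ (c : α → ℝ × ℝ) (r : α → ℝ), (∀ i, 0 < r i) ∧ ∀ i j, i ≠ j → (G.Adj i j ↔
      ((c i).1 - (c j).1) ^ 2 + ((c i).2 - (c j).2) ^ 2 ≤ (r i + r j) ^ 2)) ∧
    (∃ P : Set ((Fin k → α) × (Fin k → α)),
      (∀ p ∈ P, ∀ i j : Fin k,
        (p.1 i = p.1 j ↔ p.2 i = p.2 j) ∧ (G.Adj (p.1 i) (p.1 j) ↔ H.Adj (p.2 i) (p.2 j))) ∧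
      (∀ p ∈ P, ∀ i : Fin k, ∃ f : α ≃ α, ∀ v,
        (Function.update p.1 i v, Function.update p.2 i (f v)) ∈ P) ∧
      (∃ f : α ≃ α, ∀ v, ((fun _ : Fin k => v), (fun _ : Fin k => f v)) ∈ P)) ∧
    IsEmpty (G ≃g H) := by
  classical
  set Γ := theGeo k with hΓ
  set D := Γ.data with hDdef
  have hD : D.inc = incc := rfl
  let mult : El (VV (k + 2 + 1)) (EE (k + 2 + 1)) → ℕ := fun u =>
    (Fintype.equivFin (Cl (VV (k + 2 + 1)) (EE (k + 2 + 1))) (cl u) : ℕ) + 1
  let M : ℕ := Fintype.card (Cl (VV (k + 2 + 1)) (EE (k + 2 + 1)))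
  have hM : ∀ u, 0 < mult u ∧ mult u ≤ M := fun u =>
    ⟨Nat.succ_pos _, (Fintype.equivFin (Cl (VV (k + 2 + 1)) (EE (k + 2 + 1))) (cl u)).2⟩
  have hmult : ∀ u w, cl u = cl w → mult u = mult w := fun u w h => by
    simp only [mult, h]
  have hmult' : ∀ u w, mult u = mult w → cl u = cl w := fun u w h => by
    have h1 := Nat.succ_injective h
    exact (Fintype.equivFin _).injective (Fin.ext h1)
  have hsurj : ∀ e, ∃ v i, D.inc v i = e := fun e => ⟨lft e, lft_mem e⟩
  refine ⟨Blow mult M, inferInstance, ?_, blowG mult M (gr D 0), blowG mult M (gr D twV),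
    ?_, ?_, ?_, ?_⟩
  · let u : El (VV (k + 2 + 1)) (EE (k + 2 + 1)) := .B (.inl (0, 0)) 0
    exact ⟨⟨(u, ⟨0, (hM u).1.trans_le (hM u).2⟩), (hM u).1⟩⟩
  · have h1 : Fintype.card (Blow mult M) ≤
        Fintype.card (El (VV (k + 2 + 1)) (EE (k + 2 + 1)) × Fin M) :=
      Fintype.card_le_of_injective _ Subtype.val_injective
    refine h1.trans (le_of_eq ?_)
    rw [Fintype.card_prod, Fintype.card_fin, card_El]
    simp only [M]
    rw [card_Cl]
    ring
  · obtain ⟨c, r, hr, h⟩ := disk_rep Γ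
    refine ⟨fun p => c p.1.1, fun p => r p.1.1, fun p => hr _, fun p q hpq => ?_⟩
    by_cases h1 : p.1.1 = q.1.1
    · simp only [h1, blowG, true_or, and_true, ne_eq, hpq, not_false_eq_true, sub_self, true_iff]
      have h2 : (0 : ℝ) ≤ (r q.1.1 + r q.1.1) ^ 2 := sq_nonneg _
      linarith
    · rw [← h _ _ h1]
      simp only [blowG, ne_eq, hpq, not_false_eq_true, h1, false_or, true_and]
      rfl
  · exact dup k (by omega) D hD mult M hmult
  · refine ⟨fun Φ => ?_⟩
    obtain ⟨ψ, h1, h2, h3⟩ := blow_iso mult M hM (gr D 0) (gr D twV)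
      (fun u w h => twin_free D hsurj 0 u w h) (fun u w h => twin_free D hsurj twV u w h) Φ
    exact no_embed D hD ψ h1 (fun u => hmult' _ _ (h2 u)) h3

end Pool.Agent.DiskCFI
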