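import Pool.Agent.Lib.MP_5fb53e_lc.Rigid
import Pool.Agent.Lib.MP_5fb53e_lc.Blow

set_option autoImplicit false

namespace Pool.Agent.DiskCFI

open Finset

/-- Lines: rows and columns. -/
abbrev Ln (n : ℕ) := Bool × Fin n
/-- Base vertices. -/
abbrev VV (n : ℕ) := Ln n × Fin n
/-- Base edges. -/
abbrev EE (n : ℕ) := (Fin n × Fin n) ⊕ VV n

/-- Matrix entry number `j` on the line `l`. -/
def ent {n : ℕ} {α : Type} (x : Fin n → Fin n → α) (l : Ln n) (j : Fin n) : α :=
  if l.1 then x j l.2 else x l.2 j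

/-- Incidence. -/
def incc {m : ℕ} (v : VV (m + 1)) (i : Fin 3) : EE (m + 1) :=
  if i = 0 then .inl (if v.1.1 then (v.2, v.1.2) else (v.1.2, v.2))
  else if i = 1 then .inr v else .inr (v.1, v.2 + 1)

/-- Flip vector associated with a matrix. -/
def FF {n : ℕ} (x : Fin n → Fin n → ZMod 2) : EE n → ZMod 2
  | .inl p => x p.1 p.2
  | .inr v => ∑ j', if j' < v.2 then ent x v.1 j' else 0

/-- Sum on a line. -/
def SS {n : ℕ} (x : Fin n → Fin n → ZMod 2) (l : Ln n) : ZMod 2 := ∑ j, ent x l j

theorem sum_lt_add {n : ℕ} (a : Fin n → ZMod 2) (j : Fin n) :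
    (∑ j', if j' < j then a j' else 0) + a j = ∑ j', if j' ≤ j then a j' else 0 := by
  have h1 : a j = ∑ j', if j' = j then a j' else 0 := by simp
  conv_lhs => rw [h1]
  rw [← Finset.sum_add_distrib]
  apply Finset.sum_congr rfl
  intro j' _
  rcases lt_trichotomy j' j with h | h | h
  · simp [h, h.le, h.ne]
  · simp [h]
  · simp [h.not_ge, h.not_gt, h.ne']

theorem sum_succ {m : ℕ} (a : Fin (m + 1) → ZMod 2) (j : Fin (m + 1)) :
    (∑ j', if j' < j then a j' else 0) + a j + (∑ j', if j' < j + 1 then a j' else 0) =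
      if j = Fin.last m then ∑ j', a j' else 0 := by
  rw [sum_lt_add]
  split_ifs with h
  · subst h
    simp [Fin.le_last]
  · have h1 : ∀ j' : Fin (m + 1), (j' < j + 1) ↔ j' ≤ j := by
      intro j'
      have h2 : j.1 + 1 < m + 1 := by
        have := j.2
        have h3 : j.1 ≠ m := fun h' => h (Fin.ext h')
        omega
      rw [Fin.lt_def, Fin.le_def, Fin.val_add_one_of_lt (by
        rw [Fin.lt_def]; simp only [Fin.val_last]; omega)]
      omega
    simp only [h1]
    have : ∀ y : ZMod 2, y + y = 0 := by decide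
    exact this _

theorem kap_FF {m : ℕ} (D : Data (VV (m + 1)) (EE (m + 1))) (hD : D.inc = incc)
    (x : Fin (m + 1) → Fin (m + 1) → ZMod 2) (v : VV (m + 1)) :
    kap D (FF x) v = if v.2 = Fin.last m then SS x v.1 else 0 := by
  rw [kap, hD]
  have := sum_succ (fun j => ent x v.1 j) v.2
  rw [SS, ← this]
  simp only [incc, if_true, one_ne_zero, if_false, show ((2 : Fin 3) = 0) = False from by decide,
    show ((2 : Fin 3) = 1) = False from by decide, FF]
  have h0 : x (if v.1.1 = true then (v.2, v.1.2) else (v.1.2, v.2)).1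
      (if v.1.1 = true then (v.2, v.1.2) else (v.1.2, v.2)).2 = ent x v.1 v.2 := by
    unfold ent; split_ifs <;> rfl
  rw [h0]
  ring

theorem sum_kap {m : ℕ} (D : Data (VV (m + 1)) (EE (m + 1))) (hD : D.inc = incc)
    (F : EE (m + 1) → ZMod 2) : ∑ v, kap D F v = 0 := by
  have h2 : ∀ y : ZMod 2, y + y = 0 := by decide
  simp only [kap, hD, incc, if_true, one_ne_zero, if_false,
    show ((2 : Fin 3) = 0) = False from by decide,
    show ((2 : Fin 3) = 1) = False from by decide]
  rw [Finset.sum_add_distrib, Finset.sum_add_distrib, add_assoc]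
  have e1 : ∑ x : VV (m + 1), F (Sum.inr (x.1, x.2 + 1)) = ∑ x : VV (m + 1), F (Sum.inr x) := by
    exact Equiv.sum_comp (Equiv.prodCongr (Equiv.refl (Ln (m + 1)))
      (Equiv.addRight (1 : Fin (m + 1)))) (fun v => F (Sum.inr v))
  rw [e1, h2, add_zero]
  rw [Fintype.sum_prod_type, Fintype.sum_prod_type, Fintype.sum_bool]
  simp only [if_true, Bool.false_eq_true, if_false]
  rw [Finset.sum_comm]
  exact h2 _

/-- The line of an element. -/
def line {m : ℕ} : El (VV (m + 1)) (EE (m + 1)) → Ln (m + 1)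
  | .B (.inl p) _ => (false, p.1)
  | .B (.inr v) _ => v.1
  | .H v _ _ => v.1
  | .g v _ => v.1

theorem line_flip {m : ℕ} (D : Data (VV (m + 1)) (EE (m + 1))) (F : EE (m + 1) → ZMod 2)
    (u : El (VV (m + 1)) (EE (m + 1))) : line (flip D F u) = line u := by
  rcases u with (e | e) | _ | _ <;> rfl

/-- Changing one matrix entry. -/
def bump {n : ℕ} (x : Fin n → Fin n → ZMod 2) (i0 j0 : Fin n) : Fin n → Fin n → ZMod 2 :=
  fun i j => if i = i0 ∧ j = j0 then x i j + 1 else x i j

theorem ent_bump {n : ℕ} (x : Fin n → Fin n → ZMod 2) (i0 j0 : Fin n) (l : Ln n)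
    (h1 : l ≠ (false, i0)) (h2 : l ≠ (true, j0)) (j : Fin n) : ent (bump x i0 j0) l j = ent x l j := by
  obtain ⟨b, c⟩ := l
  cases b
  · have : c ≠ i0 := fun h => h1 (by rw [h])
    simp [ent, bump, this]
  · have : c ≠ j0 := fun h => h2 (by rw [h])
    simp [ent, bump, this]

theorem SS_bump {n : ℕ} (x : Fin n → Fin n → ZMod 2) (i0 j0 : Fin n) (l : Ln n) :
    SS (bump x i0 j0) l = SS x l + (if l = (false, i0) ∨ l = (true, j0) then 1 else 0) := by
  split_ifs with h
  · rcases h with rfl | rfl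
    · simp only [SS, ent, bump, Bool.false_eq_true, if_false, true_and]
      have : ∀ j : Fin n, (if j = j0 then x i0 j + 1 else x i0 j) =
          x i0 j + (if j = j0 then 1 else 0) := by
        intro j; split_ifs <;> simp
      simp only [this, Finset.sum_add_distrib]
      simp
    · simp only [SS, ent, bump, if_true, and_true]
      have : ∀ j : Fin n, (if j = i0 then x j j0 + 1 else x j j0) =
          x j j0 + (if j = i0 then 1 else 0) := by
        intro j; split_ifs <;> simp
      simp only [this, Finset.sum_add_distrib]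
      simp
  · rw [add_zero]
    push Not at h
    unfold SS
    apply Finset.sum_congr rfl
    intro j _
    exact ent_bump x i0 j0 l h.1 h.2 j

theorem FF_bump_inr {n : ℕ} (x : Fin n → Fin n → ZMod 2) (i0 j0 : Fin n) (v : VV n)
    (h1 : v.1 ≠ (false, i0)) (h2 : v.1 ≠ (true, j0)) :
    FF (bump x i0 j0) (.inr v) = FF x (.inr v) := by
  simp only [FF]
  apply Finset.sum_congr rfl
  intro j _
  rw [ent_bump x i0 j0 v.1 h1 h2]

theorem FF_inc {m : ℕ} (x : Fin (m + 1) → Fin (m + 1) → ZMod 2) (i0 j0 : Fin (m + 1))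
    (v : VV (m + 1)) (h1 : v.1 ≠ (false, i0)) (h2 : v.1 ≠ (true, j0)) (i : Fin 3) :
    FF (bump x i0 j0) (incc v i) = FF x (incc v i) := by
  unfold incc
  split_ifs with h3 h4 h5
  · have := ent_bump x i0 j0 v.1 h1 h2 v.2
    simp only [ent, h4, if_true] at this
    exact this
  · have := ent_bump x i0 j0 v.1 h1 h2 v.2
    simp only [ent, h4] at this
    exact this
  · exact FF_bump_inr x i0 j0 v h1 h2
  · exact FF_bump_inr x i0 j0 (v.1, v.2 + 1) h1 h2

theorem flip_bump {m : ℕ} (D : Data (VV (m + 1)) (EE (m + 1))) (hD : D.inc = incc)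
    (x : Fin (m + 1) → Fin (m + 1) → ZMod 2) (i0 j0 : Fin (m + 1))
    (u : El (VV (m + 1)) (EE (m + 1))) (h1 : line u ≠ (false, i0)) (h2 : line u ≠ (true, j0)) :
    flip D (FF (bump x i0 j0)) u = flip D (FF x) u := by
  rcases u with (⟨i, j⟩ | v) | ⟨v, i, a⟩ | ⟨v, S⟩
  · simp only [flip, FF, bump, El.B.injEq, true_and]
    have : i ≠ i0 := fun h => h1 (by simp [line, h])
    simp [this]
  · simp only [flip]
    rw [FF_bump_inr x i0 j0 v h1 h2]
  · simp only [flip, hD]
    rw [FF_inc x i0 j0 v h1 h2]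
  · simp only [flip, patMap, kap, hD, FF_inc x i0 j0 v h1 h2]

/-- The twisted line. -/
def twL {n : ℕ} [NeZero n] (l : Ln n) : ZMod 2 := if l = (false, 0) then 1 else 0

/-- The twist vector. -/
def twV {m : ℕ} (v : VV (m + 1)) : ZMod 2 := if v.2 = Fin.last m then twL v.1 else 0

/-- Invariant of the strategy. -/
def Good {n : ℕ} [NeZero n] (x : Fin n → Fin n → ZMod 2) (l : Ln n) : Prop :=
  ∀ l', SS x l' = twL l' + (if l' = l then 1 else 0)

theorem good_zero {n : ℕ} [NeZero n] : Good (n := n) (fun _ _ => 0) (false, 0) := by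
  intro l'
  simp only [SS, ent, ite_self, Finset.sum_const_zero, twL]
  split_ifs
  · decide
  · simp

theorem good_bump {n : ℕ} [NeZero n] (x : Fin n → Fin n → ZMod 2) (l : Ln n) (hx : Good x l)
    (c : Fin n) : Good (if l.1 then bump x c l.2 else bump x l.2 c) (!l.1, c) := by
  obtain ⟨b, i⟩ := l
  intro l'
  cases b
  · simp only [Bool.false_eq_true, if_false, SS_bump, hx l', Bool.not_false]
    by_cases h1 : l' = (false, i)
    · subst h1
      simp
      have : ∀ y : ZMod 2, y + 1 + 1 = y := by decide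
      exact this _
    · simp [h1]
  · simp only [if_true, SS_bump, hx l', Bool.not_true]
    by_cases h1 : l' = (true, i)
    · subst h1
      simp
      have : ∀ y : ZMod 2, y + 1 + 1 = y := by decide
      exact this _
    · simp [h1]

theorem rel_good {m : ℕ} (D : Data (VV (m + 1)) (EE (m + 1))) (hD : D.inc = incc)
    (x : Fin (m + 1) → Fin (m + 1) → ZMod 2) (l : Ln (m + 1)) (hx : Good x l)
    (u w : El (VV (m + 1)) (EE (m + 1))) (hu : line u ≠ l) (hw : line w ≠ l) :
    rel D 0 u w ↔ rel D twV (flip D (FF x) u) (flip D (FF x) w) := by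
  have key : ∀ u : El (VV (m + 1)) (EE (m + 1)), line u ≠ l →
      ∀ v, gv u = some v → kap D (FF x) v = twV v := by
    intro u hu v hv
    cases u with
    | B e s => simp [gv] at hv
    | H v i a => simp [gv] at hv
    | g v' S =>
      simp only [gv, Option.some.injEq] at hv
      subst hv
      rw [kap_FF D hD, twV]
      have : v'.1 ≠ l := hu
      rw [hx v'.1]
      simp [this]
  exact rel_flip D twV (FF x) u w (key u hu) (key w hw)

theorem sum_twV {m : ℕ} : ∑ v : VV (m + 1), twV v = 1 := by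
  rw [Fintype.sum_prod_type]
  have : ∀ l : Ln (m + 1), ∑ j, twV (l, j) = twL l := by
    intro l
    simp [twV]
  simp only [this, twL]
  simp

theorem no_embed {m : ℕ} (D : Data (VV (m + 1)) (EE (m + 1))) (hD : D.inc = incc)
    (ψ : El (VV (m + 1)) (EE (m + 1)) → El (VV (m + 1)) (EE (m + 1)))
    (hinj : Function.Injective ψ) (hcl : ∀ u, cl (ψ u) = cl u)
    (hadj : ∀ u w, u ≠ w → (rel D 0 u w ↔ rel D twV (ψ u) (ψ w))) : False := by
  obtain ⟨F, hF⟩ := parity D twV ψ hinj hcl hadj
  have h1 := sum_kap D hD F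
  simp only [hF, sum_twV] at h1
  exact absurd h1 (by decide)

end Pool.Agent.DiskCFI
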