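import Pool.Agent.Lib.MP_5fb53e_lc.Comb

set_option autoImplicit false

namespace Pool.Agent.DiskCFI

open Filter Topology

/-- Sign of a bit. -/
noncomputable def sg (a : ZMod 2) : ℝ := if a = 0 then 1 else -1

theorem sg_zero : sg 0 = 1 := by simp [sg]
theorem sg_one : sg 1 = -1 := by simp [sg]
theorem z2 (a : ZMod 2) : a = 0 ∨ a = 1 := by revert a; decide
theorem sg_sq (a : ZMod 2) : sg a ^ 2 = 1 := by
  rcases z2 a with rfl | rfl <;> simp [sg_zero, sg_one]

/-- Geometric input. -/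
structure Geo (V E : Type) where
  x : V → ℝ
  inc : V → Fin 3 → E
  d : V → Fin 3 → ℝ
  sm : E → ℝ
  dq : E → ℝ
  rk : E → ℝ
  hx : ∀ v w, v ≠ w → x v ≠ x w
  hd0 : ∀ v i, d v i ≠ 0
  hdd : ∀ v i j, i ≠ j → 1 ≤ |d v i - d v j|
  hsm : ∀ v i, sm (inc v i) = 2 * x v + d v i
  hdq : ∀ v i, dq (inc v i) = (d v i) ^ 2
  hdq0 : ∀ e, 0 ≤ dq e
  hP : ∀ v e, (∀ i, inc v i ≠ e) → (x v - sm e / 2) ^ 2 - dq e / 4 ≠ 0
  hrk : ∀ e, 0 < rk e
  hrk' : ∀ e e', rk e = rk e' → e = e'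

variable {V E : Type} (G : Geo V E)

/-- Power of a base point with respect to a limit circle. -/
noncomputable def Geo.PP (v : V) (e : E) : ℝ := (G.x v - G.sm e / 2) ^ 2 - G.dq e / 4

/-- The combinatorial data of a geometric input. -/
noncomputable def Geo.data : Data V E where
  inc := G.inc
  ori v i := if 0 < G.d v i then 1 else 0
  hBg e v := G.PP v e < 0
  hBH e v i := G.PP v e < 0 ∨ (G.PP v e = 0 ∧ G.rk e < G.rk (G.inc v i))

theorem Geo.PP_inc (v : V) (i : Fin 3) : G.PP v (G.inc v i) = 0 := by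
  rw [Geo.PP, G.hsm, G.hdq]; ring

theorem ev_lt {f : ℝ → ℝ} {c : ℝ} (hf : Continuous f) (h : f 0 < c) :
    ∀ᶠ t in 𝓝[>] (0 : ℝ), f t < c :=
  ((hf.tendsto 0).eventually_lt_const h).filter_mono nhdsWithin_le_nhds

theorem ev_gt {f : ℝ → ℝ} {c : ℝ} (hf : Continuous f) (h : c < f 0) :
    ∀ᶠ t in 𝓝[>] (0 : ℝ), c < f t :=
  ((hf.tendsto 0).eventually_const_lt h).filter_mono nhdsWithin_le_nhds

theorem exists_place (v : V) (S : Pat) : ∃ p : ℝ × ℝ, ∀ i,
    (S.1 i = 1 → p.1 + (G.d v i) ^ 2 - G.d v i * p.2 < 0) ∧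
    (S.1 i = 0 → 0 < p.1 + (G.d v i) ^ 2 - G.d v i * p.2) := by
  have hS : S.1 = (fun _ => 1) ∨ ∃ f, ∀ i, S.1 i = if i = f then 1 else 0 := by
    obtain ⟨S, hS⟩ := S
    simp only
    revert S
    decide
  rcases hS with hS | ⟨f, hS⟩
  · refine ⟨(-((G.d v 0) ^ 2 + (G.d v 1) ^ 2 + (G.d v 2) ^ 2 + 1), 0), fun i => ?_⟩
    rw [hS]
    refine ⟨fun _ => ?_, fun h => absurd h one_ne_zero⟩
    simp only [mul_zero, sub_zero]
    have h0 := sq_nonneg (G.d v 0)
    have h1 := sq_nonneg (G.d v 1)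
    have h2 := sq_nonneg (G.d v 2)
    fin_cases i <;> simp only [Fin.zero_eta, Fin.mk_one, Fin.reduceFinMk] <;> linarith
  · refine ⟨((G.d v f) ^ 2 - 1 / 2, 2 * G.d v f), fun i => ?_⟩
    rw [hS]
    by_cases hi : i = f
    · subst hi
      simp only [if_true]
      refine ⟨fun _ => by ring_nf; norm_num, fun h => absurd h (by decide)⟩
    · simp only [hi, if_false]
      refine ⟨fun h => absurd h (by decide), fun _ => ?_⟩
      have h1 := G.hdd v i f hi
      have h2 : 1 ≤ (G.d v i - G.d v f) ^ 2 := by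
        rw [← sq_abs]; nlinarith
      nlinarith

/-- Horizontal coordinate of the centre. -/
noncomputable def cx (gx : V → Pat → ℝ) (K s t : ℝ) : El V E → ℝ
  | .B e _ => G.sm e / 2 - t * G.dq e
  | .H v i a => G.x v - t * (G.d v i) ^ 2 + sg a * (s * G.rk (G.inc v i)) * K
  | .g v S => G.x v + t * gx v S

/-- Vertical coordinate of the centre. -/
noncomputable def cy (gy : V → Pat → ℝ) (K s t : ℝ) : El V E → ℝ
  | .B _ σ => K / 2 + sg σ * t ^ 2
  | .H v i a => - (sg a * (s * G.rk (G.inc v i)) * G.d v i)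
  | .g v S => t * K * gy v S

/-- Radius of the tangent pairs. -/
noncomputable def RR (K s : ℝ) (e : E) : ℝ := s * G.rk e * √(K ^ 2 + G.dq e)

/-- Radius. -/
noncomputable def rr (K s t : ℝ) : El V E → ℝ
  | .B e σ => √(G.dq e / 4 + (K / 2 + sg σ * t ^ 2) ^ 2 + (RR G K s e) ^ 2) - RR G K s e
  | .H v i _ => RR G K s (G.inc v i)
  | .g _ _ => t ^ 2

/-- Squared distance minus squared sum of radii. -/
noncomputable def QQ (gx gy : V → Pat → ℝ) (K s t : ℝ) (u w : El V E) : ℝ :=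
  (cx G gx K s t u - cx G gx K s t w) ^ 2 + (cy G gy K s t u - cy G gy K s t w) ^ 2
    - (rr G K s t u + rr G K s t w) ^ 2

theorem QQ_symm (gx gy : V → Pat → ℝ) (K s t : ℝ) (u w : El V E) :
    QQ G gx gy K s t u w = QQ G gx gy K s t w u := by
  unfold QQ; ring

theorem RR_pos {K s : ℝ} (hK : 0 < K) (hs : 0 < s) (e : E) : 0 < RR G K s e := by
  have h1 := G.hrk e
  have h2 := G.hdq0 e
  unfold RR; positivity

theorem RR_sq {K s : ℝ} (e : E) : (RR G K s e) ^ 2 = (s * G.rk e) ^ 2 * (K ^ 2 + G.dq e) := by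
  have h2 := G.hdq0 e
  unfold RR
  rw [mul_pow, Real.sq_sqrt (by positivity)]

@[fun_prop] theorem RR_cont (K : ℝ) (e : E) : Continuous (fun s => RR G K s e) := by
  unfold RR; fun_prop

theorem rr_pos {K s t : ℝ} (hK : 0 < K) (hs : 0 < s) (ht : 0 < t) (htK : t ^ 2 < K / 2)
    (u : El V E) : 0 < rr G K s t u := by
  cases u with
  | B e σ =>
    simp only [rr]
    have h1 := RR_pos G hK hs e
    have h2 := G.hdq0 e
    have h3 : 0 < K / 2 + sg σ * t ^ 2 := by
      rcases z2 σ with rfl | rfl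
      · rw [sg_zero]; positivity
      · rw [sg_one]; linarith
    rw [sub_pos]
    apply Real.lt_sqrt_of_sq_lt
    have := pow_pos h3 2
    linarith [div_nonneg h2 (by norm_num : (0 : ℝ) ≤ 4)]
  | H v i a => exact RR_pos G hK hs _
  | g v S => simp only [rr]; positivity

/-- The statement to be shown for every pair. -/
def Ev (gx gy : V → Pat → ℝ) (u w : El V E) : Prop :=
  ∀ᶠ K in atTop, ∀ᶠ s in 𝓝[>] (0 : ℝ), ∀ᶠ t in 𝓝[>] (0 : ℝ),
    (rel G.data 0 u w ↔ QQ G gx gy K s t u w ≤ 0)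

theorem Ev_symm {gx gy : V → Pat → ℝ} {u w : El V E} (h : Ev G gx gy u w) : Ev G gx gy w u := by
  unfold Ev at h ⊢
  have h1 : rel G.data 0 w u ↔ rel G.data 0 u w := ⟨rel_symm _ _ _ _, rel_symm _ _ _ _⟩
  simp only [QQ_symm G gx gy _ _ _ w u, h1]
  exact h

@[fun_prop] theorem cx_cont_t (gx : V → Pat → ℝ) (K s : ℝ) (u : El V E) :
    Continuous (fun t => cx G gx K s t u) := by
  cases u <;> simp only [cx] <;> fun_prop

@[fun_prop] theorem cy_cont_t (gy : V → Pat → ℝ) (K s : ℝ) (u : El V E) :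
    Continuous (fun t => cy G gy K s t u) := by
  cases u <;> simp only [cy] <;> fun_prop

@[fun_prop] theorem rr_cont_t (K s : ℝ) (u : El V E) :
    Continuous (fun t => rr G K s t u) := by
  cases u <;> simp only [rr] <;> fun_prop

@[fun_prop] theorem QQ_cont_t (gx gy : V → Pat → ℝ) (K s : ℝ) (u w : El V E) :
    Continuous (fun t => QQ G gx gy K s t u w) := by
  unfold QQ; fun_prop

theorem cx_cont_s (gx : V → Pat → ℝ) (K t : ℝ) (u : El V E) :
    Continuous (fun s => cx G gx K s t u) := by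
  cases u <;> simp only [cx] <;> fun_prop

theorem cy_cont_s (gy : V → Pat → ℝ) (K t : ℝ) (u : El V E) :
    Continuous (fun s => cy G gy K s t u) := by
  cases u <;> simp only [cy] <;> fun_prop

theorem rr_cont_s (K t : ℝ) (u : El V E) :
    Continuous (fun s => rr G K s t u) := by
  cases u <;> simp only [rr] <;> fun_prop

theorem QQ_cont_s (gx gy : V → Pat → ℝ) (K t : ℝ) (u w : El V E) :
    Continuous (fun s => QQ G gx gy K s t u w) := by
  unfold QQ
  have h1 := cx_cont_s G gx K t u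
  have h2 := cx_cont_s G gx K t w
  have h3 := cy_cont_s G gy K t u
  have h4 := cy_cont_s G gy K t w
  have h5 := rr_cont_s G K t u
  have h6 := rr_cont_s G K t w
  fun_prop

theorem Ev_of_neg1 {gx gy : V → Pat → ℝ} {u w : El V E} (hr : rel G.data 0 u w)
    (h : ∀ᶠ K in atTop, ∀ᶠ s in 𝓝[>] (0 : ℝ), QQ G gx gy K s 0 u w < 0) : Ev G gx gy u w := by
  unfold Ev
  filter_upwards [h] with K hK
  filter_upwards [hK] with s hs
  filter_upwards [ev_lt (QQ_cont_t G gx gy K s u w) hs] with t ht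
  exact ⟨fun _ => ht.le, fun _ => hr⟩

theorem Ev_of_pos1 {gx gy : V → Pat → ℝ} {u w : El V E} (hr : ¬ rel G.data 0 u w)
    (h : ∀ᶠ K in atTop, ∀ᶠ s in 𝓝[>] (0 : ℝ), 0 < QQ G gx gy K s 0 u w) : Ev G gx gy u w := by
  unfold Ev
  filter_upwards [h] with K hK
  filter_upwards [hK] with s hs
  filter_upwards [ev_gt (QQ_cont_t G gx gy K s u w) hs] with t ht
  exact ⟨fun h => absurd h hr, fun h => absurd ht (not_lt.2 h)⟩

theorem Ev_of_neg2 {gx gy : V → Pat → ℝ} {u w : El V E} (hr : rel G.data 0 u w)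
    (h : ∀ᶠ K in atTop, QQ G gx gy K 0 0 u w < 0) : Ev G gx gy u w := by
  apply Ev_of_neg1 G hr
  filter_upwards [h] with K hK
  exact ev_lt (QQ_cont_s G gx gy K 0 u w) hK

theorem Ev_of_pos2 {gx gy : V → Pat → ℝ} {u w : El V E} (hr : ¬ rel G.data 0 u w)
    (h : ∀ᶠ K in atTop, 0 < QQ G gx gy K 0 0 u w) : Ev G gx gy u w := by
  apply Ev_of_pos1 G hr
  filter_upwards [h] with K hK
  exact ev_gt (QQ_cont_s G gx gy K 0 u w) hK

end Pool.Agent.DiskCFI
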