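import Pool.Agent.Lib.MP_5fb53e_lc.Comb

set_option autoImplicit false

namespace Pool.Agent.DiskCFI

variable {V E : Type}

/-- Closed neighbourhood. -/
def cn (D : Data V E) (tw : V → ZMod 2) (u z : El V E) : Prop := z = u ∨ rel D tw u z

theorem exists_pat (i : Fin 3) (b : ZMod 2) (T : Pat) : ∃ S : Pat, S.1 i = b ∧ S ≠ T := by
  revert i b T
  simp only [Subtype.forall, Subtype.exists, ne_eq, Subtype.mk.injEq]
  decide

theorem exists_pat2 (i j : Fin 3) (hij : i ≠ j) (b c : ZMod 2) : ∃ S : Pat, S.1 i = b ∧ S.1 j = c := by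
  revert i j b c
  simp only [Subtype.exists]
  decide

theorem exists_pat1 (i : Fin 3) (b : ZMod 2) : ∃ S : Pat, S.1 i = b := by
  revert i b
  simp only [Subtype.exists]
  decide

theorem exists_pat_ne (T : Pat) : ∃ S : Pat, S ≠ T := by
  obtain ⟨S, -, h⟩ := exists_pat 0 0 T
  exact ⟨S, h⟩

/-- Twist term. -/
def tt (tw : V → ZMod 2) (v : V) (i : Fin 3) : ZMod 2 := if i = 0 then tw v else 0

theorem cn_H_g (D : Data V E) (tw : V → ZMod 2) (v : V) (i : Fin 3) (a : ZMod 2) (w : V) (S : Pat) :
    cn D tw (.H v i a) (.g w S) ↔ v = w ∧ a = S.1 i + tt tw v i := by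
  simp only [cn, reduceCtorEq, rel, false_or, tt]

theorem cn_B_g (D : Data V E) (tw : V → ZMod 2) (e : E) (s : ZMod 2) (w : V) (S : Pat) :
    cn D tw (.B e s) (.g w S) ↔ D.hBg e w := by
  simp only [cn, reduceCtorEq, rel, false_or]

theorem cn_g_g (D : Data V E) (tw : V → ZMod 2) (v w : V) (S T : Pat) :
    cn D tw (.g v S) (.g w T) ↔ v = w ∧ S = T := by
  simp only [cn, rel, or_false, El.g.injEq]
  constructor
  · rintro ⟨rfl, rfl⟩; exact ⟨rfl, rfl⟩
  · rintro ⟨rfl, rfl⟩; exact ⟨rfl, rfl⟩

theorem cn_B_H (D : Data V E) (tw : V → ZMod 2) (e : E) (s : ZMod 2) (v : V) (i : Fin 3)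
    (a : ZMod 2) : cn D tw (.B e s) (.H v i a) ↔
      (D.inc v i = e ∧ s + a = D.ori v i) ∨ (D.inc v i ≠ e ∧ D.hBH e v i) := by
  simp only [cn, reduceCtorEq, rel, false_or]

/-- Elements are determined by their closed neighbourhoods. -/
theorem twin_free (D : Data V E) (hsurj : ∀ e, ∃ v i, D.inc v i = e) (tw : V → ZMod 2)
    (u w : El V E) (h : ∀ z, cn D tw u z ↔ cn D tw w z) : u = w := by
  have key1 : ∀ (v : V) (S : Pat) (v' : V) (i : Fin 3) (a : ZMod 2),
      ¬ (∀ z, cn D tw (.g v S) z ↔ cn D tw (.H v' i a) z) := by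
    intro v S v' i a h
    obtain ⟨T, hT, hne⟩ := exists_pat i (a + tt tw v' i) S
    have h1 := h (.g v' T)
    rw [cn_g_g, cn_H_g] at h1
    have h2 : v' = v' ∧ a = T.1 i + tt tw v' i := ⟨rfl, by
      rw [hT, zadd]⟩
    exact hne (h1.2 h2).2.symm
  have key2 : ∀ (v : V) (S : Pat) (e : E) (s : ZMod 2),
      ¬ (∀ z, cn D tw (.g v S) z ↔ cn D tw (.B e s) z) := by
    intro v S e s h
    obtain ⟨T, hne⟩ := exists_pat_ne S
    have h1 := h (.g v S)
    have h2 := h (.g v T)
    rw [cn_g_g, cn_B_g] at h1 h2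
    exact hne (h2.2 (h1.1 ⟨rfl, rfl⟩)).2.symm
  have key3 : ∀ (v : V) (i : Fin 3) (a : ZMod 2) (e : E) (s : ZMod 2),
      ¬ (∀ z, cn D tw (.H v i a) z ↔ cn D tw (.B e s) z) := by
    intro v i a e s h
    obtain ⟨S, hS⟩ := exists_pat1 i (a + tt tw v i)
    obtain ⟨T, hT⟩ := exists_pat1 i (a + 1 + tt tw v i)
    have h1 := h (.g v S)
    have h2 := h (.g v T)
    rw [cn_H_g, cn_B_g] at h1 h2
    have h3 := h2.2 (h1.1 ⟨rfl, by rw [hS, zadd]⟩)
    have h4 := h3.2
    rw [hT, zadd] at h4
    have : ∀ a : ZMod 2, a ≠ a + 1 := by decide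
    exact this a h4
  cases u with
  | B e s =>
    cases w with
    | B e' s' =>
      obtain ⟨v, i, hvi⟩ := hsurj e'
      by_cases he : e = e'
      · subst he
        by_cases hs : s = s'
        · rw [hs]
        · exfalso
          have h1 := h (.H v i (s + D.ori v i))
          rw [cn_B_H, cn_B_H] at h1
          have h2 : s + (s + D.ori v i) = D.ori v i := by
            have : ∀ a b : ZMod 2, a + (a + b) = b := by decide
            exact this _ _
          rcases h1.1 (Or.inl ⟨hvi, h2⟩) with h3 | h3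
          · apply hs
            have : ∀ a b c : ZMod 2, a + (b + c) = c → b = a := by decide
            exact this _ _ _ h3.2
          · exact h3.1 hvi
      · exfalso
        have h0 := h (.H v i (s' + D.ori v i))
        have h1 := h (.H v i (s' + D.ori v i + 1))
        rw [cn_B_H, cn_B_H] at h0 h1
        have h2 : s' + (s' + D.ori v i) = D.ori v i := by
          have : ∀ a b : ZMod 2, a + (a + b) = b := by decide
          exact this _ _
        have h3 : D.hBH e v i := by
          rcases h0.2 (Or.inl ⟨hvi, h2⟩) with h3 | h3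
          · exact absurd (h3.1.symm.trans hvi) he
          · exact h3.2
        rcases h1.1 (Or.inr ⟨fun h => he (h.symm.trans hvi), h3⟩) with h4 | h4
        · have : ∀ a b : ZMod 2, a + (a + b + 1) ≠ b := by decide
          exact this _ _ h4.2
        · exact h4.1 hvi
    | H v i a => exact absurd (fun z => (h z).symm) (key3 v i a e s)
    | g v S => exact absurd (fun z => (h z).symm) (key2 v S e s)
  | H v i a =>
    cases w with
    | B e s => exact absurd h (key3 v i a e s)
    | H v' i' a' =>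
      obtain ⟨S, hS⟩ := exists_pat1 i (a + tt tw v i)
      have h1 := h (.g v S)
      rw [cn_H_g, cn_H_g] at h1
      have h2 := h1.1 ⟨rfl, by rw [hS, zadd]⟩
      obtain ⟨rfl, h2⟩ := h2
      by_cases hi : i = i'
      · subst hi
        rw [hS, zadd] at h2
        rw [h2]
      · exfalso
        obtain ⟨T, hT1, hT2⟩ := exists_pat2 i i' hi (a + tt tw v' i) (a' + 1 + tt tw v' i')
        have h3 := h (.g v' T)
        rw [cn_H_g, cn_H_g] at h3
        have h4 := (h3.1 ⟨rfl, by rw [hT1, zadd]⟩).2
        rw [hT2, zadd] at h4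
        have : ∀ a : ZMod 2, a ≠ a + 1 := by decide
        exact this a' h4
    | g v' S => exact absurd (fun z => (h z).symm) (key1 v' S v i a)
  | g v S =>
    cases w with
    | B e s => exact absurd h (key2 v S e s)
    | H v' i a => exact absurd h (key1 v S v' i a)
    | g v' S' =>
      have h1 := h (.g v S)
      rw [cn_g_g, cn_g_g] at h1
      obtain ⟨rfl, rfl⟩ := h1.1 ⟨rfl, rfl⟩
      rfl

/-- A colour preserving embedding of the untwisted graph in the twisted one forces the
parity defects of a flip vector to equal the twist. -/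
theorem parity (D : Data V E) (tw : V → ZMod 2)
    (ψ : El V E → El V E) (hinj : Function.Injective ψ) (hcl : ∀ u, cl (ψ u) = cl u)
    (hadj : ∀ u w, u ≠ w → (rel D 0 u w ↔ rel D tw (ψ u) (ψ w))) :
    ∃ F : E → ZMod 2, ∀ v, kap D F v = tw v := by
  have hB : ∀ e s, ∃ t, ψ (.B e s) = .B e t := by
    intro e s
    have := hcl (.B e s)
    cases h : ψ (.B e s) with
    | B e' t => rw [h] at this; simp only [cl, Cl.B.injEq] at this; subst this; exact ⟨t, rfl⟩
    | H v i a => rw [h] at this; simp [cl] at this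
    | g v S => rw [h] at this; simp [cl] at this
  have hH : ∀ v i a, ∃ b, ψ (.H v i a) = .H v i b := by
    intro v i a
    have := hcl (.H v i a)
    cases h : ψ (.H v i a) with
    | B e' t => rw [h] at this; simp [cl] at this
    | H v' i' b =>
      rw [h] at this; simp only [cl, Cl.H.injEq] at this
      obtain ⟨rfl, rfl⟩ := this; exact ⟨b, rfl⟩
    | g v S => rw [h] at this; simp [cl] at this
  have hg : ∀ v S, ∃ T, ψ (.g v S) = .g v T := by
    intro v S
    have := hcl (.g v S)
    cases h : ψ (.g v S) with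
    | B e' t => rw [h] at this; simp [cl] at this
    | H v' i' b => rw [h] at this; simp [cl] at this
    | g v' T =>
      rw [h] at this; simp only [cl, Cl.g.injEq] at this
      subst this; exact ⟨T, rfl⟩
  choose fB hfB using hB
  choose fH hfH using hH
  choose fg hfg using hg
  -- the wire flips
  have h1 : ∀ v i a, ∀ s, s + a = D.ori v i → fB (D.inc v i) s + fH v i a = D.ori v i := by
    intro v i a s h
    have h2 : rel D 0 (.B (D.inc v i) s) (.H v i a) := Or.inl ⟨rfl, h⟩
    rw [hadj _ _ (by simp), hfB, hfH] at h2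
    rcases h2 with h2 | h2
    · exact h2.2
    · exact absurd rfl h2.1
  have h2 : ∀ v S i, fH v i (S.1 i) = (fg v S).1 i + (if i = 0 then tw v else 0) := by
    intro v S i
    have h3 : rel D 0 (.H v i (S.1 i)) (.g v S) := ⟨rfl, by simp⟩
    rw [hadj _ _ (by simp), hfH, hfg] at h3
    exact h3.2
  have hBinj : ∀ e s t, fB e s = fB e t → s = t := by
    intro e s t h
    have : ψ (.B e s) = ψ (.B e t) := by rw [hfB, hfB, h]
    have := hinj this
    simpa using this
  have hB0 : ∀ e s, fB e s = s + fB e 0 := by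
    intro e s
    have h01 : fB e 0 ≠ fB e 1 := fun h => by
      have := hBinj e 0 1 h
      exact absurd this (by decide)
    have : ∀ s x y : ZMod 2, x ≠ y → (if s = 0 then x else y) = s + x := by decide
    rw [← this s (fB e 0) (fB e 1) h01]
    have hs : s = 0 ∨ s = 1 := by revert s; decide
    rcases hs with rfl | rfl <;> simp
  refine ⟨fun e => fB e 0, fun v => ?_⟩
  have h3 : ∀ i a, fH v i a = a + fB (D.inc v i) 0 := by
    intro i a
    have h4 := h1 v i a (a + D.ori v i) (by
      have : ∀ a b : ZMod 2, a + b + a = b := by decide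
      exact this _ _)
    rw [hB0] at h4
    have : ∀ a b c d : ZMod 2, a + b + c + d = b → d = a + c := by decide
    exact this _ _ _ _ h4
  obtain ⟨S, hS⟩ := exists_pat1 0 0
  have e0 := h2 v S 0
  have e1 := h2 v S 1
  have e2 := h2 v S 2
  rw [h3] at e0 e1 e2
  simp only [if_true, one_ne_zero, if_false, add_zero,
      show ((2 : Fin 3) = 0) = False from by decide] at e0 e1 e2
  have hS2 := S.2
  have hT2 := (fg v S).2
  simp only [kap]
  have : ∀ s0 s1 s2 t0 t1 t2 f0 f1 f2 t : ZMod 2, s0 + s1 + s2 = 1 → t0 + t1 + t2 = 1 →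
      s0 + f0 = t0 + t → s1 + f1 = t1 → s2 + f2 = t2 → f0 + f1 + f2 = t := by
    intro s0 s1 s2 t0 t1 t2 f0 f1 f2 t hs ht h0 h1 h2
    have h2' : (2 : ZMod 2) = 0 := by decide
    linear_combination h0 + h1 + h2 - hs + ht
  exact this _ _ _ _ _ _ _ _ _ _ hS2 hT2 e0 e1 e2

end Pool.Agent.DiskCFI
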